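import Pool.Agent.H137R2.PFR.Defs
import Pool.Agent.H112R2.Shannon
set_option autoImplicit false

/-! Basic entropy facts for laws on finite types (transfer from `H112`). -/

open scoped Classical

namespace H137.PFR

variable {Ω Ω' α β γ δ : Type*} [Fintype Ω] [Fintype Ω'] [Fintype α] [Fintype β] [Fintype γ]
  [Fintype δ]

/-- the same weights as a finitely supported function -/
noncomputable def toF (w : Ω → ℝ) : Ω →₀ ℝ := Finsupp.equivFunOnFinite.symm w

theorem toF_apply (w : Ω → ℝ) (x : Ω) : toF w x = w x := rfl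

theorem toF_sum (w : Ω → ℝ) (h : Ω → ℝ → ℝ) (h0 : ∀ x, h x 0 = 0) :
    (toF w).sum h = ∑ x, h x (w x) := by
  rw [Finsupp.sum_fintype _ _ h0]
  rfl

theorem isLaw_toF {w : Ω → ℝ} (hw : Law w) : H112.IsLaw (toF w) := by
  refine ⟨fun x => hw.1 x, ?_⟩
  rw [toF_sum _ _ (fun _ => rfl)]
  exact hw.2

omit [Fintype α] in
theorem push_eq_mapDomain (w : Ω → ℝ) (X : Ω → α) (a : α) :
    push w X a = (toF w).mapDomain X a := by
  rw [H112.shannon_mapDomain_apply]
  unfold push
  symm
  refine Finset.sum_subset (Finset.subset_univ _) fun x _ hx => ?_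
  rw [Finsupp.notMem_support_iff.mp hx, ite_self]

theorem toF_push (w : Ω → ℝ) (X : Ω → α) : toF (push w X) = (toF w).mapDomain X := by
  ext a
  rw [toF_apply, push_eq_mapDomain]

theorem ent_toF (p : α → ℝ) : H112.ent (toF p) = ent p := by
  unfold H112.ent ent
  exact toF_sum p _ (fun _ => Real.negMulLog_zero)

theorem H_toF (w : Ω → ℝ) (X : Ω → α) : H w X = H112.ent ((toF w).mapDomain X) := by
  rw [← toF_push, ent_toF]
  rfl

/-! ### A: basic facts -/

theorem law_push {w : Ω → ℝ} (hw : Law w) (X : Ω → α) : Law (push w X) := by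
  have h := H112.isLaw_mapDomain (isLaw_toF hw) X
  rw [← toF_push] at h
  refine ⟨fun x => h.1 x, ?_⟩
  have h2 := h.2
  rw [toF_sum _ _ (fun _ => rfl)] at h2
  exact h2

theorem push_push (w : Ω → ℝ) (X : Ω → α) (f : α → β) :
    push (push w X) f = push w (fun ω => f (X ω)) := by
  funext b
  rw [push_eq_mapDomain, toF_push, ← Finsupp.mapDomain_comp, push_eq_mapDomain]
  rfl

theorem law_prod {w : Ω → ℝ} {w' : Ω' → ℝ} (hw : Law w) (hw' : Law w') : Law (prod w w') := by
  refine ⟨fun p => mul_nonneg (hw.1 _) (hw'.1 _), ?_⟩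
  unfold prod
  rw [Fintype.sum_prod_type]
  simp only [← Finset.mul_sum, hw'.2, mul_one]
  exact hw.2

omit [Fintype α] [Fintype β] in
theorem push_prod (w : Ω → ℝ) (w' : Ω' → ℝ) (X : Ω → α) (Y : Ω' → β) (a : α) (b : β) :
    push (prod w w') (fun p => (X p.1, Y p.2)) (a, b) = push w X a * push w' Y b := by
  unfold push prod
  rw [Fintype.sum_prod_type, Finset.sum_mul_sum]
  refine Finset.sum_congr rfl fun x _ => Finset.sum_congr rfl fun y _ => ?_
  by_cases h1 : X x = a
  · by_cases h2 : Y y = b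
    · simp [h1, h2]
    · simp [h1, h2]
  · simp [h1]

theorem H_nonneg {w : Ω → ℝ} (hw : Law w) (X : Ω → α) : 0 ≤ H w X := by
  rw [H_toF]
  exact H112.ent_nonneg (H112.isLaw_mapDomain (isLaw_toF hw) X)

theorem H_comp_le {w : Ω → ℝ} (hw : Law w) (X : Ω → α) (f : α → β) :
    H w (fun ω => f (X ω)) ≤ H w X := by
  rw [H_toF, H_toF]
  have h := H112.ent_mapDomain_le (H112.isLaw_mapDomain (isLaw_toF hw) X) f
  rw [← Finsupp.mapDomain_comp] at h
  exact h

theorem H_eq {w : Ω → ℝ} (hw : Law w) {X : Ω → α} {Y : Ω → β} (f : α → β) (g : β → α)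
    (hf : ∀ ω, f (X ω) = Y ω) (hg : ∀ ω, g (Y ω) = X ω) : H w X = H w Y := by
  have h1 := H_comp_le hw X f
  have h2 := H_comp_le hw Y g
  simp only [hf] at h1
  simp only [hg] at h2
  exact le_antisymm h2 h1

theorem H_unit {w : Ω → ℝ} (hw : Law w) : H w (fun _ => ()) = 0 := by
  rw [H_toF]
  exact H112.shannon_ent_const (isLaw_toF hw) ()

theorem H_submod {w : Ω → ℝ} (hw : Law w) (X : Ω → α) (Y : Ω → β) (Z : Ω → γ) :
    H w (fun ω => (X ω, Y ω, Z ω)) + H w Z ≤
      H w (fun ω => (X ω, Z ω)) + H w (fun ω => (Y ω, Z ω)) := by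
  rw [H_toF, H_toF, H_toF, H_toF]
  exact H112.ent_submod (isLaw_toF hw) X Y Z

theorem H_subadd {w : Ω → ℝ} (hw : Law w) (X : Ω → α) (Y : Ω → β) :
    H w (fun ω => (X ω, Y ω)) ≤ H w X + H w Y := by
  rw [H_toF, H_toF, H_toF]
  exact H112.ent_subadd (isLaw_toF hw) X Y

theorem H_prod {w : Ω → ℝ} {w' : Ω' → ℝ} (hw : Law w) (hw' : Law w') (X : Ω → α) (Y : Ω' → β) :
    H (prod w w') (fun p => (X p.1, Y p.2)) = H w X + H w' Y := by
  have h1 := (law_push hw X).2
  have h2 := (law_push hw' Y).2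
  unfold H ent
  rw [Fintype.sum_prod_type]
  simp only [push_prod, Real.negMulLog_mul, Finset.sum_add_distrib, ← Finset.mul_sum,
    ← Finset.sum_mul, h1, h2, one_mul]

theorem push_prod_fst (w : Ω → ℝ) {w' : Ω' → ℝ} (hw' : Law w') (X : Ω → α) :
    push (prod w w') (fun p => X p.1) = push w X := by
  funext a
  unfold push prod
  rw [Fintype.sum_prod_type]
  refine Finset.sum_congr rfl fun x _ => ?_
  by_cases h1 : X x = a
  · simp only [h1, if_true, ← Finset.mul_sum, hw'.2, mul_one]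
  · simp [h1]

theorem push_prod_snd {w : Ω → ℝ} (hw : Law w) (w' : Ω' → ℝ) (Y : Ω' → β) :
    push (prod w w') (fun p => Y p.2) = push w' Y := by
  funext a
  unfold push prod
  rw [Fintype.sum_prod_type, Finset.sum_comm]
  refine Finset.sum_congr rfl fun x _ => ?_
  by_cases h1 : Y x = a
  · simp only [h1, if_true, ← Finset.sum_mul, hw.2, one_mul]
  · simp [h1]

theorem H_prod_fst {w : Ω → ℝ} {w' : Ω' → ℝ} (hw : Law w) (hw' : Law w') (X : Ω → α) :
    H (prod w w') (fun p => X p.1) = H w X := by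
  unfold H
  rw [push_prod_fst w hw' X]

theorem H_prod_snd {w : Ω → ℝ} {w' : Ω' → ℝ} (hw : Law w) (hw' : Law w') (Y : Ω' → β) :
    H (prod w w') (fun p => Y p.2) = H w' Y := by
  unfold H
  rw [push_prod_snd hw w' Y]

omit [Fintype γ] in
/-- summing a joint law over the first coordinate -/
theorem push_marg (w : Ω → ℝ) (X : Ω → α) (C : Ω → γ) (c : γ) :
    ∑ a, push w (fun ω => (X ω, C ω)) (a, c) = push w C c := by
  unfold push
  rw [Finset.sum_comm]
  refine Finset.sum_congr rfl fun ω _ => ?_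
  rw [Finset.sum_eq_single (X ω)]
  · by_cases h : C ω = c
    · simp [h]
    · simp [h]
  · intro b _ hb
    rw [if_neg]
    intro h
    exact hb (Prod.ext_iff.mp h).1.symm
  · intro h
    exact absurd (Finset.mem_univ _) h

theorem law_cnd {w : Ω → ℝ} (hw : Law w) (X : Ω → α) (C : Ω → γ) {c : γ}
    (hc : push w C c ≠ 0) : Law (cnd w X C c) := by
  refine ⟨fun a => div_nonneg ((law_push hw _).1 _) ((law_push hw _).1 _), ?_⟩
  unfold cnd
  rw [← Finset.sum_div, push_marg, div_self hc]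

/-- chain rule -/
theorem H_chain {w : Ω → ℝ} (hw : Law w) (X : Ω → α) (C : Ω → γ) :
    H w (fun ω => (X ω, C ω)) = H w C + ∑ c, push w C c * ent (cnd w X C c) := by
  have h1 : H w (fun ω => (X ω, C ω)) = ∑ c, ∑ a,
      Real.negMulLog (push w (fun ω => (X ω, C ω)) (a, c)) := by
    unfold H ent
    rw [Fintype.sum_prod_type, Finset.sum_comm]
  have h2 : H w C = ∑ c, Real.negMulLog (push w C c) := rfl
  rw [h1, h2, ← Finset.sum_add_distrib]
  refine Finset.sum_congr rfl fun c _ => ?_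
  by_cases hc : push w C c = 0
  · rw [hc, Real.negMulLog_zero, zero_mul, add_zero]
    refine Finset.sum_eq_zero fun a _ => ?_
    have h3 : push w (fun ω => (X ω, C ω)) (a, c) = 0 := by
      have h4 := push_marg w X C c
      rw [hc] at h4
      exact (Finset.sum_eq_zero_iff_of_nonneg fun b _ => (law_push hw _).1 _).mp h4 a
        (Finset.mem_univ _)
    rw [h3, Real.negMulLog_zero]
  · have h3 : ∀ a, push w (fun ω => (X ω, C ω)) (a, c) = push w C c * cnd w X C c a := by
      intro a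
      unfold cnd
      field_simp
    have h4 := (law_cnd hw X C hc).2
    simp only [h3, Real.negMulLog_mul, Finset.sum_add_distrib, ← Finset.mul_sum,
      ← Finset.sum_mul, h4, one_mul]
    rfl

end H137.PFR
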