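import Pool.Agent.H137R2.PFR.Basic
import Pool.Agent.H137R2.PFR.Minim
set_option autoImplicit false

/-! Entropic Balog-Szemeredi-Gowers, combined with the minimality (task C). -/

open scoped Classical

namespace H137.PFR

namespace BSG

variable {Ω Ω' α β γ δ : Type*} [Fintype Ω] [Fintype Ω'] [Fintype α] [Fintype β] [Fintype γ]
  [Fintype δ]

/-- pairs with the same value of `C` -/
def Pr (C : Ω → γ) : Type _ := {q : Ω × Ω // C q.1 = C q.2}

noncomputable instance instPr (C : Ω → γ) : Fintype (Pr C) :=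
  inferInstanceAs (Fintype {q : Ω × Ω // C q.1 = C q.2})

/-- two conditionally independent copies given `C` -/
noncomputable def ww (w : Ω → ℝ) (C : Ω → γ) : Pr C → ℝ := fun q =>
  w q.1.1 * w q.1.2 / push w C (C q.1.1)

omit [Fintype α] in
theorem push_nonneg {w : Ω → ℝ} (hw : ∀ x, 0 ≤ w x) (X : Ω → α) (a : α) : 0 ≤ push w X a :=
  Finset.sum_nonneg fun ω _ => by split_ifs; exacts [hw ω, le_rfl]

omit [Fintype α] in
theorem le_push {w : Ω → ℝ} (hw : ∀ x, 0 ≤ w x) (X : Ω → α) (ω : Ω) : w ω ≤ push w X (X ω) := by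
  have h := Finset.single_le_sum (s := Finset.univ)
    (f := fun o => if X o = X ω then w o else 0)
    (fun o _ => by split_ifs; exacts [hw o, le_rfl]) (Finset.mem_univ ω)
  unfold push
  simpa using h

omit [Fintype α] in
theorem push_eq (w : Ω → ℝ) (X : Ω → α) (a : α) [∀ ω, Decidable (X ω = a)] :
    push w X a = ∑ ω, if X ω = a then w ω else 0 := by
  unfold push
  refine Finset.sum_congr rfl fun ω _ => ?_
  congr

omit [Fintype γ] in
theorem sum_Pr (C : Ω → γ) (G : Ω → Ω → ℝ) :
    ∑ q : Pr C, G q.1.1 q.1.2 = ∑ o, ∑ o', if C o' = C o then G o o' else 0 := by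
  have h1 : ∑ q : Pr C, G q.1.1 q.1.2 =
      ∑ q ∈ (Finset.univ : Finset (Ω × Ω)).filter (fun q => C q.1 = C q.2), G q.1 q.2 := by
    rw [Finset.sum_subtype (p := fun q : Ω × Ω => C q.1 = C q.2) _ (by simp)
      (fun q : Ω × Ω => G q.1 q.2)]
    rfl
  rw [h1, Finset.sum_filter, Fintype.sum_prod_type]
  refine Finset.sum_congr rfl fun o _ => Finset.sum_congr rfl fun o' _ => ?_
  simp only [eq_comm]

omit [Fintype γ] [Fintype α] in
/-- the first marginal -/
theorem push_fst {w : Ω → ℝ} (hw : ∀ x, 0 ≤ w x) (C : Ω → γ) (f : Ω → α) :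
    push (ww w C) (fun q => f q.1.1) = push w f := by
  funext a
  unfold push ww
  have h1 := sum_Pr C (fun o o' => if f o = a then
    w o * w o' / (∑ ω, if C ω = C o then w ω else 0) else 0)
  refine h1.trans ?_
  refine Finset.sum_congr rfl fun o _ => ?_
  split_ifs with h
  · have h2 : ∑ o', (if C o' = C o then w o * w o' / (∑ ω, if C ω = C o then w ω else 0) else 0) =
        w o * (∑ o', if C o' = C o then w o' else 0) / (∑ ω, if C ω = C o then w ω else 0) := by
      rw [Finset.mul_sum, Finset.sum_div]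
      refine Finset.sum_congr rfl fun o' _ => ?_
      split_ifs <;> simp
    rw [h2]
    by_cases h0 : (∑ ω, if C ω = C o then w ω else 0) = 0
    · have h3 : w o = 0 := by
        have := le_push hw C o
        unfold push at this
        rw [h0] at this
        exact le_antisymm this (hw o)
      rw [h3]
      simp
    · rw [mul_div_assoc, div_self h0, mul_one]
  · simp

omit [Fintype α] in
theorem push_snd {w : Ω → ℝ} (hw : ∀ x, 0 ≤ w x) (C : Ω → γ) (f : Ω → α) :
    push (ww w C) (fun q => f q.1.2) = push w f := by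
  have e : Pr C ≃ Pr C :=
    { toFun := fun q => ⟨(q.1.2, q.1.1), q.2.symm⟩
      invFun := fun q => ⟨(q.1.2, q.1.1), q.2.symm⟩
      left_inv := fun q => rfl
      right_inv := fun q => rfl }
  rw [← push_fst hw C f]
  funext a
  unfold push
  let e' : Pr C ≃ Pr C :=
    { toFun := fun q => ⟨(q.1.2, q.1.1), q.2.symm⟩
      invFun := fun q => ⟨(q.1.2, q.1.1), q.2.symm⟩
      left_inv := fun q => rfl
      right_inv := fun q => rfl }
  refine Fintype.sum_equiv e' _ _ fun q => ?_
  have h1 : ww w C (e' q) = ww w C q := by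
    unfold ww
    have h2 : C (e' q).1.1 = C q.1.1 := q.2.symm
    rw [h2]
    change w q.1.2 * w q.1.1 / _ = _
    rw [mul_comm (w q.1.2)]
  rw [h1]
  rfl

theorem law_ww {w : Ω → ℝ} (hw : Law w) (C : Ω → γ) : Law (ww w C) := by
  constructor
  · intro q
    exact div_nonneg (mul_nonneg (hw.1 _) (hw.1 _)) (push_nonneg hw.1 _ _)
  · have h := congrFun (push_fst hw.1 C (fun _ => ())) ()
    unfold push at h
    simp only [if_true] at h
    rw [h, hw.2]

/-- the joint law of the two copies -/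
theorem push_joint {w : Ω → ℝ} (hw : ∀ x, 0 ≤ w x) (C : Ω → γ) (f : Ω → α) (g : Ω → β) (x : α)
    (y : β) (c : γ) :
    push (ww w C) (fun q => (f q.1.1, g q.1.2, C q.1.1)) (x, y, c) =
      push w (fun o => (f o, C o)) (x, c) * push w (fun o => (g o, C o)) (y, c) / push w C c := by
  have h1 : push (ww w C) (fun q => (f q.1.1, g q.1.2, C q.1.1)) (x, y, c) =
      ∑ q : Pr C, (fun o o' => if (f o, g o', C o) = (x, y, c) then
        w o * w o' / push w C (C o) else 0) q.1.1 q.1.2 := push_eq _ _ _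
  refine (h1.trans (sum_Pr C (fun o o' => if (f o, g o', C o) = (x, y, c) then
        w o * w o' / push w C (C o) else 0))).trans ?_
  unfold push
  rw [Finset.sum_mul_sum, Finset.sum_div]
  refine Finset.sum_congr rfl fun o _ => ?_
  rw [Finset.sum_div]
  refine Finset.sum_congr rfl fun o' _ => ?_
  simp only [Prod.mk.injEq]
  by_cases h2 : C o = c
  · subst h2
    by_cases h3 : C o' = C o
    · by_cases h4 : f o = x
      · by_cases h5 : g o' = y <;> simp [h3, h4, h5]
      · simp [h4]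
    · simp [h3]
  · simp [h2]

theorem CI_ww {w : Ω → ℝ} (hw : ∀ x, 0 ≤ w x) (C : Ω → γ) (f : Ω → α) (g : Ω → β) :
    CI (ww w C) (fun q => f q.1.1) (fun q => g q.1.2) (fun q => C q.1.1) := by
  intro x y c
  have hC : (fun q : Pr C => C q.1.1) = fun q => C q.1.2 := funext fun q => q.2
  rw [push_joint hw C f g x y c]
  have h1 : push (ww w C) (fun q => C q.1.1) c = push w C c := congrFun (push_fst hw C C) c
  have h2 : push (ww w C) (fun q => (f q.1.1, C q.1.1)) (x, c) = push w (fun o => (f o, C o)) (x, c) :=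
    congrFun (push_fst hw C (fun o => (f o, C o))) (x, c)
  have h3 : push (ww w C) (fun q => (g q.1.2, C q.1.1)) (y, c) =
      push w (fun o => (g o, C o)) (y, c) := by
    have : (fun q : Pr C => (g q.1.2, C q.1.1)) = fun q => (g q.1.2, C q.1.2) :=
      funext fun q => by rw [q.2]
    rw [this]
    exact congrFun (push_snd hw C (fun o => (g o, C o))) (y, c)
  rw [h1, h2, h3]
  by_cases h0 : push w C c = 0
  · have h4 : push w (fun o => (f o, C o)) (x, c) = 0 := by
      apply le_antisymm _ (push_nonneg hw _ _)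
      rw [← h0]
      unfold push
      refine Finset.sum_le_sum fun o _ => ?_
      by_cases h5 : C o = c
      · by_cases h6 : f o = x
        · simp [h5, h6]
        · simp [h5, h6, hw o]
      · simp [h5]
    rw [h4, h0]
    simp
  · rw [div_mul_cancel₀ _ h0]

theorem H_key {w : Ω → ℝ} (Z : Ω → δ) :
    H w Z = ∑ ω, w ω * -Real.log (push w Z (Z ω)) := by
  unfold H ent
  have h1 : ∀ z, Real.negMulLog (push w Z z) =
      ∑ ω, if Z ω = z then w ω * -Real.log (push w Z z) else 0 := by
    intro z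
    have h2 : Real.negMulLog (push w Z z) = (∑ ω, if Z ω = z then w ω else 0) *
        -Real.log (push w Z z) := by
      rw [Real.negMulLog]
      have : push w Z z = ∑ ω, if Z ω = z then w ω else 0 := rfl
      rw [← this]
      ring
    rw [h2, Finset.sum_mul]
    refine Finset.sum_congr rfl fun ω _ => ?_
    split_ifs <;> simp
  rw [Finset.sum_congr rfl fun z _ => h1 z, Finset.sum_comm]
  refine Finset.sum_congr rfl fun ω _ => ?_
  rw [Finset.sum_ite_eq]
  simp

/-- entropy of a conditionally independent pair -/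
theorem H_CI {w : Ω → ℝ} (hw : Law w) {X : Ω → α} {Y : Ω → β} {C : Ω → γ} (h : CI w X Y C) :
    H w (fun ω => (X ω, Y ω, C ω)) + H w C =
      H w (fun ω => (X ω, C ω)) + H w (fun ω => (Y ω, C ω)) := by
  rw [H_key (fun ω => (X ω, Y ω, C ω)), H_key C, H_key (fun ω => (X ω, C ω)),
    H_key (fun ω => (Y ω, C ω)),
    ← Finset.sum_add_distrib, ← Finset.sum_add_distrib]
  refine Finset.sum_congr rfl fun ω _ => ?_
  by_cases h0 : w ω = 0
  · rw [h0]; simp
  · have hpos : 0 < w ω := lt_of_le_of_ne (hw.1 ω) (Ne.symm h0)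
    have h1 := h (X ω) (Y ω) (C ω)
    have h2 := congrArg Real.log h1
    rw [Real.log_mul (hpos.trans_le (le_push hw.1 (fun ω => (X ω, Y ω, C ω)) ω)).ne'
        (hpos.trans_le (le_push hw.1 C ω)).ne',
      Real.log_mul (hpos.trans_le (le_push hw.1 (fun ω => (X ω, C ω)) ω)).ne'
        (hpos.trans_le (le_push hw.1 (fun ω => (Y ω, C ω)) ω)).ne'] at h2
    linear_combination (-(w ω)) * h2

end BSG

variable {Ω γ : Type*} [Fintype Ω] [Fintype γ]
variable {V : Type*} [AddCommGroup V] [Fintype V]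

open BSG in
theorem endgame {μ₀ : V → ℝ} (h0 : Law μ₀) {t : ℝ} (h2 : ∀ x : V, x + x = 0)
    (ht : ∀ μ ν : V → ℝ, Law μ → Law ν → t ≤ tau μ₀ μ ν)
    {w : Ω → ℝ} (hw : Law w) (X Y Z : Ω → V) (S : Ω → γ) (hsum : ∀ ω, X ω + Y ω + Z ω = 0) :
    t ≤ (2 * H w (fun ω => (X ω, S ω)) + 2 * H w (fun ω => (Y ω, S ω)) + H w (fun ω => (Z ω, S ω))
        - 2 * H w (fun ω => (X ω, Y ω, S ω)) - 3 * H w S)
      - (H w (fun ω => (X ω, Y ω, S ω)) - H w (fun ω => (Z ω, S ω)))
      + ((E0 μ₀ w X S - H w S) - ent μ₀ / 2 - (H w (fun ω => (X ω, Y ω, S ω))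
            - H w (fun ω => (Z ω, S ω))) / 2
        + ((E0 μ₀ w Y S - H w S) - ent μ₀ / 2 - (H w (fun ω => (X ω, Y ω, S ω))
            - H w (fun ω => (Z ω, S ω))) / 2)) / 20 := by
  have hneg : ∀ x : V, -x = x := fun x => neg_eq_of_add_eq_zero_left (h2 x)
  have hZ : ∀ ω, Z ω = X ω + Y ω := by
    intro ω
    have h3 := hsum ω
    rw [add_eq_zero_iff_eq_neg, hneg] at h3
    exact h3.symm
  set C : Ω → V × γ := fun ω => (Z ω, S ω) with hC
  have hw' := law_ww hw C
  have hCC : ∀ q : Pr C, Z q.1.1 = Z q.1.2 ∧ S q.1.1 = S q.1.2 := fun q => Prod.mk.inj q.2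
  have hmain := minimality h0 ht hw' (fun q => X q.1.1) (fun q => Y q.1.2) (fun q => C q.1.1)
    (CI_ww hw.1 C X Y)
  -- marginals
  have m1 : H (ww w C) (fun q => C q.1.1) = H w C := by
    unfold H; rw [push_fst hw.1 C C]
  have m2 : H (ww w C) (fun q => (X q.1.1, C q.1.1)) = H w (fun ω => (X ω, C ω)) := by
    unfold H; rw [push_fst hw.1 C (fun ω => (X ω, C ω))]
  have m3 : H (ww w C) (fun q => (Y q.1.2, C q.1.1)) = H w (fun ω => (Y ω, C ω)) := by
    have : (fun q : Pr C => (Y q.1.2, C q.1.1)) = fun q => (Y q.1.2, C q.1.2) :=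
      funext fun q => by rw [q.2]
    unfold H; rw [this, push_snd hw.1 C (fun ω => (Y ω, C ω))]
  have hE : ∀ (U : Ω → V) (π : Pr C → Ω) (hπ : ∀ {δ : Type _} (f : Ω → δ),
      push (ww w C) (fun q => f (π q)) = push w f),
      push (prod μ₀ (ww w C)) (fun p : V × Pr C => (p.1 + U (π p.2), C (π p.2))) =
      push (prod μ₀ w) (fun p : V × Ω => (p.1 + U p.2, C p.2)) := by
    intro U π hπ
    funext a
    have e : ∀ {Θ : Type _} [Fintype Θ] (u : Θ → ℝ) (F : V → Θ → V × (V × γ)),
        push (prod μ₀ u) (fun p : V × Θ => F p.1 p.2) a = ∑ v, μ₀ v * push u (F v) a := by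
      intro Θ _ u F
      unfold push prod
      rw [Fintype.sum_prod_type]
      refine Finset.sum_congr rfl fun v _ => ?_
      rw [Finset.mul_sum]
      refine Finset.sum_congr rfl fun o _ => ?_
      split_ifs <;> simp
    rw [e (ww w C) (fun v q => (v + U (π q), C (π q))), e w (fun v o => (v + U o, C o))]
    refine Finset.sum_congr rfl fun v _ => ?_
    rw [hπ (fun o => (v + U o, C o))]
  have m4 : E0 μ₀ (ww w C) (fun q => X q.1.1) (fun q => C q.1.1) = E0 μ₀ w X C := by
    unfold E0 H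
    rw [hE X (fun q => q.1.1) (fun f => push_fst hw.1 C f)]
  have m5 : E0 μ₀ (ww w C) (fun q => Y q.1.2) (fun q => C q.1.1) = E0 μ₀ w Y C := by
    have : (fun q : Pr C => C q.1.1) = fun q => C q.1.2 := funext fun q => q.2
    rw [this]
    unfold E0 H
    rw [hE Y (fun q => q.1.2) (fun f => push_snd hw.1 C f)]
  rw [m1, m2, m3, m4, m5] at hmain
  -- `E0` is monotone
  have hE0 : ∀ U : Ω → V, E0 μ₀ w U C - H w C ≤ E0 μ₀ w U S - H w S := by
    intro U
    have hp := law_prod h0 hw
    have h3 := H_submod hp (fun p : V × Ω => p.1 + U p.2) (fun p => Z p.2) (fun p => S p.2)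
    have h4 : H (prod μ₀ w) (fun p : V × Ω => S p.2) = H w S := H_prod_snd h0 hw S
    have h5 : H (prod μ₀ w) (fun p : V × Ω => (Z p.2, S p.2)) = H w C := H_prod_snd h0 hw C
    rw [h4, h5] at h3
    have h6 : E0 μ₀ w U C = H (prod μ₀ w) (fun p : V × Ω => (p.1 + U p.2, Z p.2, S p.2)) := rfl
    have h7 : E0 μ₀ w U S = H (prod μ₀ w) (fun p : V × Ω => (p.1 + U p.2, S p.2)) := rfl
    rw [h6, h7]
    linarith
  -- entropies of `(X, Y, S)`
  have hXC : H w (fun ω => (X ω, C ω)) = H w (fun ω => (X ω, Y ω, S ω)) := by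
    refine H_eq hw (fun a => (a.1, a.1 + a.2.1, a.2.2)) (fun a => (a.1, a.1 + a.2.1, a.2.2))
      (fun ω => ?_) (fun ω => ?_)
    · simp only [hC, hZ ω, Prod.mk.injEq, true_and, and_true]
      rw [← add_assoc, h2, zero_add]
    · simp only [hC, hZ ω]
  have hYC : H w (fun ω => (Y ω, C ω)) = H w (fun ω => (X ω, Y ω, S ω)) := by
    refine H_eq hw (fun a => (a.1 + a.2.1, a.1, a.2.2)) (fun a => (a.2.1, a.1 + a.2.1, a.2.2))
      (fun ω => ?_) (fun ω => ?_)
    · simp only [hC, hZ ω, Prod.mk.injEq, and_true]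
      rw [add_comm (X ω), ← add_assoc, h2, zero_add]
    · simp only [hC, hZ ω]
  -- the main entropy bound
  have hD : H (ww w C) (fun q => (X q.1.1 + Y q.1.2, C q.1.1)) - H w C ≤
      2 * H w (fun ω => (X ω, S ω)) + 2 * H w (fun ω => (Y ω, S ω)) + H w C
        - 2 * H w (fun ω => (X ω, Y ω, S ω)) - 3 * H w S := by
    have s1 := H_submod hw' (fun q : Pr C => X q.1.1 + Y q.1.2) (fun q => Z q.1.1)
      (fun q => S q.1.1)
    have s2 : H (ww w C) (fun q => S q.1.1) = H w S := by
      unfold H; rw [push_fst hw.1 C S]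
    have s3 : H (ww w C) (fun q => (Z q.1.1, S q.1.1)) = H w C := m1
    have s4 : H (ww w C) (fun q => (X q.1.1 + Y q.1.2, Z q.1.1, S q.1.1)) =
        H (ww w C) (fun q => (X q.1.1 + Y q.1.2, C q.1.1)) := rfl
    rw [s2, s3, s4] at s1
    have s5 := H_submod hw' (fun q : Pr C => X q.1.1) (fun q => Y q.1.1)
      (fun q => (X q.1.1 + Y q.1.2, S q.1.1))
    -- the four-variable entropy
    have s6 : H (ww w C) (fun q => (X q.1.1, Y q.1.1, X q.1.1 + Y q.1.2, S q.1.1)) =
        H (ww w C) (fun q => (X q.1.1, X q.1.2, C q.1.1)) := by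
      refine H_eq hw'
        (fun a => (a.1, a.1 + a.2.1 + (a.2.2.1 + a.1), a.1 + a.2.1, a.2.2.2))
        (fun a => (a.1, a.1 + a.2.2.1, a.1 + (a.2.2.1 + a.2.1), a.2.2.2))
        (fun q => ?_) (fun q => ?_)
      · have h3 := (hCC q).1
        rw [hZ, hZ] at h3
        simp only [hC, hZ q.1.1, Prod.mk.injEq, true_and, and_true]
        have e1 : X q.1.1 + Y q.1.2 + X q.1.1 = Y q.1.2 := by
          rw [add_comm (X q.1.1), add_assoc, h2, add_zero]
        rw [e1, h3, add_assoc, h2, add_zero]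
      · have h3 := (hCC q).1
        rw [hZ, hZ] at h3
        simp only [hC, hZ q.1.1, Prod.mk.injEq, true_and, and_true]
        constructor
        · rw [← add_assoc, h2, zero_add]
        · rw [h3, add_comm (X q.1.2), add_assoc, h2, add_zero]
    have s7 := H_CI hw' (CI_ww hw.1 C X X)
    have s8 : H (ww w C) (fun q => (X q.1.2, C q.1.1)) = H w (fun ω => (X ω, C ω)) := by
      have : (fun q : Pr C => (X q.1.2, C q.1.1)) = fun q => (X q.1.2, C q.1.2) :=
        funext fun q => by rw [q.2]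
      unfold H; rw [this, push_snd hw.1 C (fun ω => (X ω, C ω))]
    rw [m1, m2, s8, hXC] at s7
    rw [s6] at s5
    -- the two three-variable entropies
    have s9 : H (ww w C) (fun q => (X q.1.1, X q.1.1 + Y q.1.2, S q.1.1)) ≤
        H w (fun ω => (X ω, S ω)) + H w (fun ω => (Y ω, S ω)) - H w S := by
      have t1 : H (ww w C) (fun q => (X q.1.1, X q.1.1 + Y q.1.2, S q.1.1)) =
          H (ww w C) (fun q => (X q.1.1, Y q.1.2, S q.1.1)) := by
        refine H_eq hw' (fun a => (a.1, a.1 + a.2.1, a.2.2)) (fun a => (a.1, a.1 + a.2.1, a.2.2))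
          (fun q => ?_) (fun q => ?_)
        · simp only [Prod.mk.injEq, true_and, and_true]
          rw [← add_assoc, h2, zero_add]
        · rfl
      have t2 := H_submod hw' (fun q : Pr C => X q.1.1) (fun q => Y q.1.2) (fun q => S q.1.1)
      have t3 : H (ww w C) (fun q => (X q.1.1, S q.1.1)) = H w (fun ω => (X ω, S ω)) := by
        unfold H; rw [push_fst hw.1 C (fun ω => (X ω, S ω))]
      have t4 : H (ww w C) (fun q => (Y q.1.2, S q.1.1)) = H w (fun ω => (Y ω, S ω)) := by
        have : (fun q : Pr C => (Y q.1.2, S q.1.1)) = fun q => (Y q.1.2, S q.1.2) :=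
          funext fun q => by rw [(hCC q).2]
        unfold H; rw [this, push_snd hw.1 C (fun ω => (Y ω, S ω))]
      rw [s2, t3, t4] at t2
      rw [t1]
      linarith
    have s10 : H (ww w C) (fun q => (Y q.1.1, X q.1.1 + Y q.1.2, S q.1.1)) ≤
        H w (fun ω => (X ω, S ω)) + H w (fun ω => (Y ω, S ω)) - H w S := by
      have t1 : H (ww w C) (fun q => (Y q.1.1, X q.1.1 + Y q.1.2, S q.1.1)) =
          H (ww w C) (fun q => (Y q.1.1, X q.1.2, S q.1.1)) := by
        refine H_eq hw' (fun a => (a.1, a.1 + a.2.1, a.2.2)) (fun a => (a.1, a.1 + a.2.1, a.2.2))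
          (fun q => ?_) (fun q => ?_)
        · have h3 := (hCC q).1
          rw [hZ, hZ] at h3
          simp only [Prod.mk.injEq, true_and, and_true]
          calc Y q.1.1 + (X q.1.1 + Y q.1.2) = (X q.1.1 + Y q.1.1) + Y q.1.2 := by abel
            _ = X q.1.2 + (Y q.1.2 + Y q.1.2) := by rw [h3]; abel
            _ = X q.1.2 := by rw [h2, add_zero]
        · have h3 := (hCC q).1
          rw [hZ, hZ] at h3
          simp only [Prod.mk.injEq, true_and, and_true]
          calc Y q.1.1 + X q.1.2 = (X q.1.1 + X q.1.1) + (Y q.1.1 + X q.1.2) := by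
                rw [h2, zero_add]
            _ = X q.1.1 + ((X q.1.1 + Y q.1.1) + X q.1.2) := by abel
            _ = X q.1.1 + ((X q.1.2 + Y q.1.2) + X q.1.2) := by rw [h3]
            _ = X q.1.1 + (Y q.1.2 + (X q.1.2 + X q.1.2)) := by abel
            _ = X q.1.1 + Y q.1.2 := by rw [h2, add_zero]
      have t2 := H_submod hw' (fun q : Pr C => Y q.1.1) (fun q => X q.1.2) (fun q => S q.1.1)
      have t3 : H (ww w C) (fun q => (Y q.1.1, S q.1.1)) = H w (fun ω => (Y ω, S ω)) := by
        unfold H; rw [push_fst hw.1 C (fun ω => (Y ω, S ω))]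
      have t4 : H (ww w C) (fun q => (X q.1.2, S q.1.1)) = H w (fun ω => (X ω, S ω)) := by
        have : (fun q : Pr C => (X q.1.2, S q.1.1)) = fun q => (X q.1.2, S q.1.2) :=
          funext fun q => by rw [(hCC q).2]
        unfold H; rw [this, push_snd hw.1 C (fun ω => (X ω, S ω))]
      rw [s2, t3, t4] at t2
      rw [t1]
      linarith
    linarith
  have e1 := hE0 X
  have e2 := hE0 Y
  rw [hXC, hYC] at hmain
  have hCd : H w (fun ω => (Z ω, S ω)) = H w C := rfl
  rw [hCd]
  linarith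

end H137.PFR
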