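import Mathlib
set_option autoImplicit false

/-! Entropic PFR over `F_2` (Gowers-Green-Manners-Tao): definitions. Laws are functions on finite
types. -/

open scoped Classical

namespace H137.PFR

/-- law on a finite type -/
def Law {Ω : Type*} [Fintype Ω] (w : Ω → ℝ) : Prop := (∀ x, 0 ≤ w x) ∧ ∑ x, w x = 1

/-- distribution of `X` under the weights `w` -/
noncomputable def push {Ω α : Type*} [Fintype Ω] (w : Ω → ℝ) (X : Ω → α) (a : α) : ℝ :=
  ∑ ω, if X ω = a then w ω else 0

/-- entropy of a vector of weights -/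
noncomputable def ent {α : Type*} [Fintype α] (p : α → ℝ) : ℝ := ∑ a, Real.negMulLog (p a)

/-- Shannon entropy of the random variable `X` under `w` -/
noncomputable def H {Ω α : Type*} [Fintype Ω] [Fintype α] (w : Ω → ℝ) (X : Ω → α) : ℝ :=
  ent (push w X)

/-- product law -/
def prod {Ω Ω' : Type*} (w : Ω → ℝ) (w' : Ω' → ℝ) : Ω × Ω' → ℝ := fun p => w p.1 * w' p.2

/-- conditional distribution of `X` given `C = c` -/
noncomputable def cnd {Ω α γ : Type*} [Fintype Ω] (w : Ω → ℝ) (X : Ω → α) (C : Ω → γ) (c : γ) :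
    α → ℝ := fun a => push w (fun ω => (X ω, C ω)) (a, c) / push w C c

/-- `X` and `Y` are conditionally independent given `C` -/
def CI {Ω α β γ : Type*} [Fintype Ω] (w : Ω → ℝ) (X : Ω → α) (Y : Ω → β) (C : Ω → γ) : Prop :=
  ∀ x y c, push w (fun ω => (X ω, Y ω, C ω)) (x, y, c) * push w C c =
    push w (fun ω => (X ω, C ω)) (x, c) * push w (fun ω => (Y ω, C ω)) (y, c)

variable {V : Type*} [AddCommGroup V] [Fintype V]

/-- convolution of two laws -/
noncomputable def conv (μ ν : V → ℝ) : V → ℝ := push (prod μ ν) (fun p => p.1 + p.2)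

/-- Ruzsa distance (characteristic 2) -/
noncomputable def dist (μ ν : V → ℝ) : ℝ := ent (conv μ ν) - ent μ / 2 - ent ν / 2

/-- the functional of Gowers, Green, Manners and Tao with `η = 1/20` -/
noncomputable def tau (μ₀ μ ν : V → ℝ) : ℝ := dist μ ν + (dist μ₀ μ + dist μ₀ ν) / 20

/-- entropy of `(X₀ + X, C)` with `X₀ ~ μ₀` independent of everything -/
noncomputable def E0 {Ω γ : Type*} [Fintype Ω] [Fintype γ] (μ₀ : V → ℝ) (w : Ω → ℝ) (X : Ω → V)
    (C : Ω → γ) : ℝ := H (prod μ₀ w) (fun p : V × Ω => (p.1 + X p.2, C p.2))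

end H137.PFR
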