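import Pool.Agent.H137R2.PFR.Defs
set_option autoImplicit false

/-! Entropic PFR over `F_2`, module D: existence of a minimiser of `tau` (helper517). -/

open scoped Classical

namespace H137.PFR

theorem D_law_iff {Ω : Type*} [Fintype Ω] (w : Ω → ℝ) : Law w ↔ w ∈ stdSimplex ℝ Ω := by
  simp [Law, stdSimplex]

theorem D_continuous_push {P Ω α : Type*} [TopologicalSpace P] [Fintype Ω]
    {w : P → Ω → ℝ} (hw : Continuous w) (X : Ω → α) : Continuous (fun p => push (w p) X) := by
  refine continuous_pi (fun a => ?_)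
  unfold push
  refine continuous_finsetSum _ (fun ω _ => ?_)
  by_cases h : X ω = a
  · simp only [h, if_true]
    exact (continuous_apply ω).comp hw
  · simp only [h, if_false]
    exact continuous_const

theorem D_continuous_ent {P α : Type*} [TopologicalSpace P] [Fintype α]
    {w : P → α → ℝ} (hw : Continuous w) : Continuous (fun p => ent (w p)) := by
  unfold ent
  refine continuous_finsetSum _ (fun a _ => ?_)
  exact Real.continuous_negMulLog.comp ((continuous_apply a).comp hw)

variable {V : Type*} [AddCommGroup V] [Fintype V]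

theorem D_continuous_conv {P : Type*} [TopologicalSpace P]
    {u v : P → V → ℝ} (hu : Continuous u) (hv : Continuous v) :
    Continuous (fun p => conv (u p) (v p)) := by
  unfold conv
  refine D_continuous_push ?_ _
  refine continuous_pi (fun q => ?_)
  exact ((continuous_apply q.1).comp hu).mul ((continuous_apply q.2).comp hv)

theorem D_continuous_dist {P : Type*} [TopologicalSpace P]
    {u v : P → V → ℝ} (hu : Continuous u) (hv : Continuous v) :
    Continuous (fun p => dist (u p) (v p)) := by
  unfold dist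
  exact ((D_continuous_ent (D_continuous_conv hu hv)).sub
    ((D_continuous_ent hu).div_const 2)).sub ((D_continuous_ent hv).div_const 2)

theorem exists_min (μ₀ : V → ℝ) : ∃ μ₁ μ₂ : V → ℝ, Law μ₁ ∧ Law μ₂ ∧
    ∀ μ ν : V → ℝ, Law μ → Law ν → tau μ₀ μ₁ μ₂ ≤ tau μ₀ μ ν := by
  have hc : IsCompact ((stdSimplex ℝ V) ×ˢ (stdSimplex ℝ V)) :=
    (isCompact_stdSimplex ℝ V).prod (isCompact_stdSimplex ℝ V)
  have hne : ((stdSimplex ℝ V) ×ˢ (stdSimplex ℝ V)).Nonempty :=
    ⟨(Pi.single 0 1, Pi.single 0 1), single_mem_stdSimplex ℝ 0, single_mem_stdSimplex ℝ 0⟩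
  have hcont : Continuous (fun p : (V → ℝ) × (V → ℝ) => tau μ₀ p.1 p.2) := by
    unfold tau
    have h0 : Continuous (fun _ : (V → ℝ) × (V → ℝ) => μ₀) := continuous_const
    exact (D_continuous_dist continuous_fst continuous_snd).add
      (((D_continuous_dist h0 continuous_fst).add
        (D_continuous_dist h0 continuous_snd)).div_const 20)
  obtain ⟨p, hp, hmin⟩ := hc.exists_isMinOn hne hcont.continuousOn
  refine ⟨p.1, p.2, (D_law_iff _).2 hp.1, (D_law_iff _).2 hp.2, fun μ ν hμ hν => ?_⟩
  exact hmin (a := (μ, ν)) ⟨(D_law_iff _).1 hμ, (D_law_iff _).1 hν⟩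

end H137.PFR
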