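import Pool.Agent.H137R2.PFR.Defs
set_option autoImplicit false

/-! Entropic PFR, the 100 percent case. -/

open scoped Classical

namespace H137.PFR

namespace Hundred

variable {V : Type*} [AddCommGroup V] [Fintype V]

theorem conv_apply (μ ν : V → ℝ) (v : V) : conv μ ν v = ∑ y, ν y * μ (v - y) := by
  unfold conv push prod
  rw [Fintype.sum_prod_type_right]
  apply Finset.sum_congr rfl
  intro y _
  simp only
  rw [Finset.sum_eq_single (v - y)]
  · rw [if_pos (sub_add_cancel v y), mul_comm]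
  · intro x _ hx
    rw [if_neg]
    intro h
    exact hx (by rw [← h, add_sub_cancel_right])
  · intro h
    exact absurd (Finset.mem_univ _) h

theorem conv_apply' (μ ν : V → ℝ) (v : V) : conv μ ν v = ∑ x, μ x * ν (v - x) := by
  unfold conv push prod
  rw [Fintype.sum_prod_type]
  apply Finset.sum_congr rfl
  intro x _
  simp only
  rw [Finset.sum_eq_single (v - x)]
  · rw [if_pos (add_sub_cancel x v)]
  · intro y _ hy
    rw [if_neg]
    intro h
    exact hy (by rw [← h, add_sub_cancel_left])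
  · intro h
    exact absurd (Finset.mem_univ _) h

theorem conv_comm0 (μ ν : V → ℝ) : conv μ ν = conv ν μ := by
  funext v
  rw [conv_apply, conv_apply']

theorem ent_shift (μ : V → ℝ) (y : V) :
    ∑ v, Real.negMulLog (μ (v - y)) = ent μ := by
  unfold ent
  exact Fintype.sum_equiv (Equiv.subRight y) _ _ (fun v => rfl)

theorem jensen_pt {μ ν : V → ℝ} (hμ : Law μ) (hν : Law ν) (v : V) :
    ∑ y, ν y * Real.negMulLog (μ (v - y)) ≤ Real.negMulLog (conv μ ν v) := by
  rw [conv_apply]
  have h := Real.concaveOn_negMulLog.le_map_sum (t := Finset.univ) (w := ν)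
    (p := fun y => μ (v - y)) (fun i _ => hν.1 i) hν.2 (fun i _ => hμ.1 _)
  simpa [smul_eq_mul] using h

theorem jensen_sum {μ ν : V → ℝ} (hν : Law ν) :
    ∑ v, ∑ y, ν y * Real.negMulLog (μ (v - y)) = ent μ := by
  rw [Finset.sum_comm]
  have h : ∀ y, ∑ v, ν y * Real.negMulLog (μ (v - y)) = ν y * ent μ := by
    intro y
    rw [← Finset.mul_sum, ent_shift]
  simp_rw [h]
  rw [← Finset.sum_mul, hν.2, one_mul]

theorem ent_le_conv {μ ν : V → ℝ} (hμ : Law μ) (hν : Law ν) : ent μ ≤ ent (conv μ ν) := by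
  rw [← jensen_sum (μ := μ) hν]
  exact Finset.sum_le_sum fun v _ => jensen_pt hμ hν v

theorem indep_of_eq {μ ν : V → ℝ} (hμ : Law μ) (hν : Law ν) (he : ent (conv μ ν) ≤ ent μ)
    (y : V) (hy : ν y ≠ 0) (v : V) : μ (v - y) = conv μ ν v := by
  have h1 : ∑ v, (Real.negMulLog (conv μ ν v) - ∑ y, ν y * Real.negMulLog (μ (v - y))) = 0 := by
    rw [Finset.sum_sub_distrib, jensen_sum hν]
    have := ent_le_conv hμ hν
    have h2 : ∑ v, Real.negMulLog (conv μ ν v) = ent (conv μ ν) := rfl
    rw [h2]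
    linarith
  have h2 := (Finset.sum_eq_zero_iff_of_nonneg (fun v _ => sub_nonneg.mpr
    (jensen_pt hμ hν v))).mp h1 v (Finset.mem_univ v)
  have h3 := Real.strictConcaveOn_negMulLog.map_sum_eq_iff' (t := Finset.univ) (w := ν)
    (p := fun y => μ (v - y)) (fun i _ => hν.1 i) hν.2 (fun i _ => hμ.1 _)
  simp only [smul_eq_mul] at h3
  rw [← conv_apply] at h3
  exact (h3.mp (by linarith)) y (Finset.mem_univ y) hy

/-- the stabiliser -/
def stab (μ : V → ℝ) : AddSubgroup V where
  carrier := {h | ∀ x, μ (x + h) = μ x}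
  zero_mem' := by
    intro x
    rw [add_zero]
  add_mem' := by
    intro a b ha hb x
    rw [← add_assoc, hb, ha]
  neg_mem' := by
    intro a ha x
    have := ha (x + -a)
    rw [neg_add_cancel_right] at this
    exact this.symm

omit [Fintype V] in
theorem mem_stab {μ : V → ℝ} {h : V} : h ∈ stab μ ↔ ∀ x, μ (x + h) = μ x := Iff.rfl

omit [AddCommGroup V] in
theorem exists_supp {ν : V → ℝ} (hν : Law ν) : ∃ y, ν y ≠ 0 := by
  by_contra hc
  push Not at hc
  have := hν.2
  simp [hc] at this

/-- entropy of a law supported in a coset -/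
theorem ent_le_log {ν : V → ℝ} (hν : Law ν) (G : AddSubgroup V)
    (h : ∀ y y', ν y ≠ 0 → ν y' ≠ 0 → y - y' ∈ G) : ent ν ≤ Real.log (Nat.card G) := by
  obtain ⟨y0, hy0⟩ := exists_supp hν
  set N : ℝ := (Nat.card G : ℝ) with hN
  have hN0 : 0 < N := by
    rw [hN]
    exact_mod_cast Nat.card_pos
  have hzero : ∀ y, y - y0 ∉ G → ν y = 0 := by
    intro y hy
    by_contra hc
    exact hy (h y y0 hc hy0)
  have hpt : ∀ y, Real.negMulLog (ν y) ≤
      ν y * Real.log N + ((if y - y0 ∈ G then 1 / N else 0) - ν y) := by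
    intro y
    by_cases hy : y - y0 ∈ G
    · rw [if_pos hy]
      rcases (hν.1 y).eq_or_lt with h0 | h0
      · rw [← h0]
        simp
        positivity
      · have h1 := Real.log_le_sub_one_of_pos (x := 1 / (N * ν y)) (by positivity)
        rw [Real.log_div one_ne_zero (by positivity), Real.log_one,
          Real.log_mul hN0.ne' h0.ne'] at h1
        have h2 := mul_le_mul_of_nonneg_left h1 h0.le
        have h3 : ν y * (1 / (N * ν y) - 1) = 1 / N - ν y := by
          field_simp
        rw [h3] at h2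
        unfold Real.negMulLog
        linarith
    · rw [if_neg hy, hzero y hy]
      simp
  calc ent ν ≤ ∑ y, (ν y * Real.log N + ((if y - y0 ∈ G then 1 / N else 0) - ν y)) :=
        Finset.sum_le_sum fun y _ => hpt y
    _ = Real.log N + ((∑ y, if y - y0 ∈ G then 1 / N else 0) - 1) := by
        rw [Finset.sum_add_distrib, Finset.sum_sub_distrib, ← Finset.sum_mul, hν.2, one_mul]
    _ = Real.log N := by
        have h1 : (∑ y : V, if y - y0 ∈ G then 1 / N else 0) = 1 := by
          rw [Fintype.sum_equiv (Equiv.subRight y0) (fun y => if y - y0 ∈ G then 1 / N else 0)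
            (fun y => if y ∈ G then 1 / N else 0) (fun v => rfl)]
          rw [← Finset.sum_filter, Finset.sum_const, nsmul_eq_mul]
          have h2 : ((Finset.univ.filter fun y : V => y ∈ G).card : ℝ) = N := by
            rw [hN, Nat.card_eq_fintype_card, Fintype.card_subtype]
          rw [h2]
          field_simp
        rw [h1]
        ring

/-- entropy of an invariant law -/
theorem log_le_ent {μ : V → ℝ} (hμ : Law μ) (G : AddSubgroup V)
    (h : ∀ g ∈ G, ∀ x, μ (x + g) = μ x) : Real.log (Nat.card G) ≤ ent μ := by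
  set N : ℝ := (Nat.card G : ℝ) with hN
  have hN0 : 0 < N := by
    rw [hN]
    exact_mod_cast Nat.card_pos
  have hle : ∀ x, N * μ x ≤ 1 := by
    intro x
    have h1 : ∑ g : G, μ (x + g) ≤ ∑ y, μ y := by
      have hinj : Function.Injective fun g : G => x + (g : V) := by
        intro a b hab
        exact Subtype.ext (add_left_cancel hab)
      have h5 : ∑ g : G, μ (x + g) =
          ∑ y ∈ Finset.univ.map ⟨fun g : G => x + (g : V), hinj⟩, μ y := by
        rw [Finset.sum_map]
        rfl
      rw [h5]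
      exact Finset.sum_le_univ_sum_of_nonneg hμ.1
    rw [hμ.2] at h1
    have h2 : ∑ g : G, μ (x + g) = N * μ x := by
      rw [Finset.sum_congr rfl (fun (g : G) _ => h g.1 g.2 x), Finset.sum_const,
        nsmul_eq_mul, hN, Nat.card_eq_fintype_card]
      rfl
    linarith
  calc Real.log N = ∑ x, μ x * Real.log N := by rw [← Finset.sum_mul, hμ.2, one_mul]
    _ ≤ ent μ := by
      apply Finset.sum_le_sum
      intro x _
      unfold Real.negMulLog
      rcases (hμ.1 x).eq_or_lt with h0 | h0
      · rw [← h0]; simp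
      · have h1 : N ≤ 1 / μ x := by
          rw [le_div_iff₀ h0]
          exact hle x
        have h2 := Real.log_le_log hN0 h1
        rw [Real.log_div one_ne_zero h0.ne', Real.log_one] at h2
        have h3 := mul_le_mul_of_nonneg_left h2 h0.le
        linarith

end Hundred

open Hundred in
theorem hundred {V : Type*} [AddCommGroup V] [Fintype V] {μ₁ μ₂ : V → ℝ} (h1 : Law μ₁)
    (h2 : Law μ₂) (hd : dist μ₁ μ₂ = 0) :
    ∃ G : AddSubgroup V, (∀ h ∈ G, ∀ x, μ₁ (x + h) = μ₁ x) ∧ ent μ₁ = Real.log (Nat.card G) ∧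
      (∀ h ∈ G, ∀ x, μ₂ (x + h) = μ₂ x) ∧ ent μ₂ = Real.log (Nat.card G) := by
  have e1 := ent_le_conv h1 h2
  have e2 := ent_le_conv h2 h1
  rw [conv_comm0] at e2
  unfold dist at hd
  have e3 : ent μ₁ = ent (conv μ₁ μ₂) := by linarith
  have e4 : ent μ₂ = ent (conv μ₁ μ₂) := by linarith
  have i1 := indep_of_eq h1 h2 e3.ge
  have i2 := indep_of_eq h2 h1 (by rw [conv_comm0]; exact e4.ge)
  -- supports
  have s2 : ∀ y y', μ₂ y ≠ 0 → μ₂ y' ≠ 0 → y - y' ∈ stab μ₁ := by
    intro y y' hy hy'
    rw [mem_stab]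
    intro x
    have a1 := i1 y' hy' (x + y)
    have a2 := i1 y hy (x + y)
    rw [← a2] at a1
    rw [show x + (y - y') = x + y - y' by abel, a1, add_sub_cancel_right]
  have s1 : ∀ y y', μ₁ y ≠ 0 → μ₁ y' ≠ 0 → y - y' ∈ stab μ₂ := by
    intro y y' hy hy'
    rw [mem_stab]
    intro x
    have a1 := i2 y' hy' (x + y)
    have a2 := i2 y hy (x + y)
    rw [← a2] at a1
    rw [show x + (y - y') = x + y - y' by abel, a1, add_sub_cancel_right]
  have b1 := ent_le_log h2 (stab μ₁) s2
  have b2 := ent_le_log h1 (stab μ₂) s1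
  have b3 := log_le_ent h1 (stab μ₁) (fun g hg => hg)
  have b4 := log_le_ent h2 (stab μ₂) (fun g hg => hg)
  have hle : stab μ₁ ≤ stab μ₂ := by
    intro g hg
    obtain ⟨x, hx⟩ := exists_supp h1
    have h3 : μ₁ (x + g) ≠ 0 := by rw [hg x]; exact hx
    have h4 := s1 (x + g) x h3 hx
    rwa [add_sub_cancel_left] at h4
  have hlog : Real.log (Nat.card (stab μ₁)) = Real.log (Nat.card (stab μ₂)) := by linarith
  have hcard : Nat.card (stab μ₁) = Nat.card (stab μ₂) := by
    have p1 : (0 : ℝ) < (Nat.card (stab μ₁) : ℝ) := by exact_mod_cast Nat.card_pos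
    have p2 : (0 : ℝ) < (Nat.card (stab μ₂) : ℝ) := by exact_mod_cast Nat.card_pos
    exact_mod_cast Real.log_injOn_pos (Set.mem_Ioi.mpr p1) (Set.mem_Ioi.mpr p2) hlog
  have heq : stab μ₁ = stab μ₂ := AddSubgroup.eq_of_le_of_card_ge hle hcard.ge
  refine ⟨stab μ₁, fun h hh => hh, by linarith, ?_, by linarith⟩
  intro h hh
  rw [heq] at hh
  exact hh

end H137.PFR
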