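import Pool.Agent.H137R2.PFR.Defs
set_option autoImplicit false

open scoped Classical
set_option linter.unusedSectionVars false

namespace H137.PFR

variable {Ω Ω' α β γ δ : Type*} [Fintype Ω] [Fintype Ω'] [Fintype α] [Fintype β] [Fintype γ]
  [Fintype δ]

theorem push_equiv (e : Ω ≃ Ω') (w : Ω' → ℝ) (X : Ω' → α) :
    push (fun ω => w (e ω)) (fun ω => X (e ω)) = push w X := by
  funext a
  unfold push
  exact Equiv.sum_comp e (fun ω => if X ω = a then w ω else 0)

theorem H_equiv (e : Ω ≃ Ω') (w : Ω' → ℝ) (X : Ω' → α) :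
    H (fun ω => w (e ω)) (fun ω => X (e ω)) = H w X := by
  unfold H
  rw [push_equiv]

private theorem push_prod_aux (w : Ω → ℝ) (w' : Ω' → ℝ) (P : Ω → Prop) (Q : Ω' → Prop) :
    ∑ p : Ω × Ω', (if P p.1 ∧ Q p.2 then prod w w' p else 0) =
      (∑ ω, if P ω then w ω else 0) * (∑ ω', if Q ω' then w' ω' else 0) := by
  rw [Finset.sum_mul_sum, Fintype.sum_prod_type]
  refine Finset.sum_congr rfl (fun a _ => Finset.sum_congr rfl (fun b _ => ?_))
  unfold prod
  by_cases h1 : P a <;> by_cases h2 : Q b <;> simp [h1, h2]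

private theorem push_prod_aux' (w : Ω → ℝ) (w' : Ω' → ℝ) (P : Ω → Prop) (Q : Ω' → Prop)
    (R : Ω × Ω' → Prop) (hR : ∀ p, R p ↔ (P p.1 ∧ Q p.2)) :
    ∑ p : Ω × Ω', (if R p then prod w w' p else 0) =
      (∑ ω, if P ω then w ω else 0) * (∑ ω', if Q ω' then w' ω' else 0) := by
  rw [← push_prod_aux]
  exact Finset.sum_congr rfl (fun p _ => if_congr (hR p) rfl rfl)

theorem CI_prod {w : Ω → ℝ} {w' : Ω' → ℝ} (X : Ω → α) (C : Ω → γ) (Y : Ω' → β) (C' : Ω' → δ) :
    CI (prod w w') (fun p => X p.1) (fun p => Y p.2) (fun p => (C p.1, C' p.2)) := by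
  intro x y c
  obtain ⟨c, c'⟩ := c
  unfold push
  rw [push_prod_aux' w w' (fun ω => X ω = x ∧ C ω = c) (fun ω' => Y ω' = y ∧ C' ω' = c') _
      (fun p => by simp only [Prod.mk.injEq]; tauto),
    push_prod_aux' w w' (fun ω => C ω = c) (fun ω' => C' ω' = c') _
      (fun p => by simp only [Prod.mk.injEq]),
    push_prod_aux' w w' (fun ω => X ω = x ∧ C ω = c) (fun ω' => C' ω' = c') _
      (fun p => by simp only [Prod.mk.injEq]; tauto),
    push_prod_aux' w w' (fun ω => C ω = c) (fun ω' => Y ω' = y ∧ C' ω' = c') _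
      (fun p => by simp only [Prod.mk.injEq]; tauto)]
  ring

private theorem law_push_aux {w : Ω → ℝ} (hw : Law w) (X : Ω → α) : Law (push w X) := by
  constructor
  · intro a
    unfold push
    exact Finset.sum_nonneg (fun ω _ => by split_ifs; exacts [hw.1 ω, le_refl _])
  · unfold push
    rw [Finset.sum_comm, ← hw.2]
    refine Finset.sum_congr rfl (fun ω _ => ?_)
    simp

private theorem law_prod_aux {w : Ω → ℝ} {w' : Ω' → ℝ} (hw : Law w) (hw' : Law w') :
    Law (prod w w') := by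
  constructor
  · intro p
    exact mul_nonneg (hw.1 _) (hw'.1 _)
  · unfold prod
    rw [Fintype.sum_prod_type]
    simp only
    rw [← Finset.sum_mul_sum, hw.2, hw'.2, mul_one]

variable {V : Type*} [AddCommGroup V] [Fintype V]

theorem law_conv {μ ν : V → ℝ} (hμ : Law μ) (hν : Law ν) : Law (conv μ ν) :=
  law_push_aux (law_prod_aux hμ hν) _

end H137.PFR
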