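import Pool.Agent.H137R2.PFR.Basic
import Pool.Agent.H137R2.PFR.Indep
import Pool.Agent.H137R2.PFR.Kvm
import Pool.Agent.H137R2.PFR.Minim
import Pool.Agent.H137R2.PFR.Bsg
set_option autoImplicit false

open scoped Classical

namespace H137.PFR

variable {Ω Ω' α β γ δ : Type*} [Fintype Ω] [Fintype Ω'] [Fintype α] [Fintype β] [Fintype γ]
  [Fintype δ]

variable {V : Type*} [AddCommGroup V] [Fintype V]

theorem E0_prod_fst {μ₀ : V → ℝ} (h0 : Law μ₀) {w : Ω → ℝ} {w' : Ω' → ℝ} (hw : Law w)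
    (hw' : Law w') (X : Ω → V) (C : Ω → γ) (C' : Ω' → δ) :
    E0 μ₀ (prod w w') (fun p => X p.1) (fun p => (C p.1, C' p.2)) = E0 μ₀ w X C + H w' C' := by
  have e1 : E0 μ₀ (prod w w') (fun p => X p.1) (fun p => (C p.1, C' p.2)) =
      H (prod (prod μ₀ w) w') (fun p : (V × Ω) × Ω' => ((p.1.1 + X p.1.2, C p.1.2), C' p.2)) := by
    have h2 := H_equiv (Equiv.prodAssoc V Ω Ω') (prod μ₀ (prod w w'))
      (fun p : V × (Ω × Ω') => ((p.1 + X p.2.1, (C p.2.1, C' p.2.2)) : V × (γ × δ)))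
    unfold E0
    rw [← h2]
    have h3 : (fun ω => prod μ₀ (prod w w') ((Equiv.prodAssoc V Ω Ω') ω)) =
        prod (prod μ₀ w) w' := by
      funext ω
      simp only [prod, Equiv.prodAssoc_apply]
      ring
    rw [h3]
    exact H_eq (law_prod (law_prod h0 hw) hw') (fun q => ((q.1, q.2.1), q.2.2))
      (fun q => (q.1.1, (q.1.2, q.2))) (fun _ => rfl) (fun _ => rfl)
  rw [e1]
  exact H_prod (law_prod h0 hw) hw' (fun p : V × Ω => (p.1 + X p.2, C p.2)) C'

theorem E0_prod_snd {μ₀ : V → ℝ} (h0 : Law μ₀) {w : Ω → ℝ} {w' : Ω' → ℝ} (hw : Law w)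
    (hw' : Law w') (Y : Ω' → V) (C : Ω → γ) (C' : Ω' → δ) :
    E0 μ₀ (prod w w') (fun p => Y p.2) (fun p => (C p.1, C' p.2)) = E0 μ₀ w' Y C' + H w C := by
  have e0 : E0 μ₀ (prod w w') (fun p => Y p.2) (fun p => (C p.1, C' p.2)) =
      E0 μ₀ (prod w' w) (fun p => Y p.1) (fun p => (C' p.1, C p.2)) := by
    unfold E0
    have h2 := H_equiv (Equiv.prodCongr (Equiv.refl V) (Equiv.prodComm Ω' Ω))
      (prod μ₀ (prod w w'))
      (fun p : V × (Ω × Ω') => ((p.1 + Y p.2.2, (C p.2.1, C' p.2.2)) : V × (γ × δ)))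
    rw [← h2]
    have h3 : (fun ω => prod μ₀ (prod w w')
        ((Equiv.prodCongr (Equiv.refl V) (Equiv.prodComm Ω' Ω)) ω)) =
        prod μ₀ (prod w' w) := by
      funext ω
      simp only [prod, Equiv.prodCongr_apply, Prod.map, Equiv.refl_apply, Equiv.prodComm_apply,
        Prod.fst_swap, Prod.snd_swap]
      ring
    rw [h3]
    exact H_eq (law_prod h0 (law_prod hw' hw)) (fun q => (q.1, (q.2.2, q.2.1)))
      (fun q => (q.1, (q.2.2, q.2.1))) (fun _ => rfl) (fun _ => rfl)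
  rw [e0]
  exact E0_prod_fst h0 hw' hw Y C' C

theorem minimality_prod {μ₀ : V → ℝ} (h0 : Law μ₀) {t : ℝ}
    (ht : ∀ μ ν : V → ℝ, Law μ → Law ν → t ≤ tau μ₀ μ ν)
    {w : Ω → ℝ} {w' : Ω' → ℝ} (hw : Law w) (hw' : Law w') (X : Ω → V) (C : Ω → γ)
    (Y : Ω' → V) (C' : Ω' → δ) :
    t ≤ (H (prod w w') (fun p => (X p.1 + Y p.2, (C p.1, C' p.2))) - H w C - H w' C')
      - (H w (fun ω => (X ω, C ω)) - H w C) / 2 - (H w' (fun ω => (Y ω, C' ω)) - H w' C') / 2
      + ((E0 μ₀ w X C - H w C) - ent μ₀ / 2 - (H w (fun ω => (X ω, C ω)) - H w C) / 2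
        + ((E0 μ₀ w' Y C' - H w' C') - ent μ₀ / 2
            - (H w' (fun ω => (Y ω, C' ω)) - H w' C') / 2)) / 20 := by
  have hm := minimality h0 ht (law_prod hw hw') (fun p => X p.1) (fun p => Y p.2)
    (fun p => (C p.1, C' p.2)) (CI_prod X C Y C')
  rw [E0_prod_fst h0 hw hw' X C C', E0_prod_snd h0 hw hw' Y C C'] at hm
  have e1 : H (prod w w') (fun p => (C p.1, C' p.2)) = H w C + H w' C' := H_prod hw hw' C C'
  have e2 : H (prod w w') (fun p => (X p.1, (C p.1, C' p.2))) =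
      H w (fun ω => (X ω, C ω)) + H w' C' := by
    rw [← H_prod hw hw' (fun ω => (X ω, C ω)) C']
    exact H_eq (law_prod hw hw') (fun q => ((q.1, q.2.1), q.2.2)) (fun q => (q.1.1, (q.1.2, q.2)))
      (fun _ => rfl) (fun _ => rfl)
  have e3 : H (prod w w') (fun p => (Y p.2, (C p.1, C' p.2))) =
      H w C + H w' (fun ω => (Y ω, C' ω)) := by
    rw [← H_prod hw hw' C (fun ω => (Y ω, C' ω))]
    exact H_eq (law_prod hw hw') (fun q => (q.2.1, (q.1, q.2.2))) (fun q => (q.2.1, (q.1, q.2.2)))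
      (fun _ => rfl) (fun _ => rfl)
  rw [e1, e2, e3] at hm
  linarith

theorem H_unit_right {w : Ω → ℝ} (hw : Law w) (X : Ω → α) :
    H w (fun ω => (X ω, ())) = H w X :=
  H_eq hw (fun q => q.1) (fun q => (q, ())) (fun _ => rfl) (fun _ => rfl)

theorem E0_le_of_law {μ₀ : V → ℝ} (h0 : Law μ₀) {w : Ω → ℝ} (hw : Law w) (X : Ω → V)
    (C : Ω → γ) {μ : V → ℝ} (hX : push w X = μ) : E0 μ₀ w X C - H w C ≤ ent (conv μ₀ μ) := by
  have h1 := E0_cond_le h0 hw X C
  rw [E0_push h0 hw X, hX] at h1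
  exact h1

theorem push_fst {μ : α → ℝ} {ν : β → ℝ} (hν : Law ν) : push (prod μ ν) (fun p => p.1) = μ := by
  funext a
  unfold push prod
  rw [Fintype.sum_prod_type]
  simp only
  rw [Finset.sum_eq_single a]
  · simp only [if_true, ← Finset.mul_sum, hν.2, mul_one]
  · intro b _ hb
    simp [hb]
  · intro h; exact absurd (Finset.mem_univ a) h

theorem push_snd {μ : α → ℝ} {ν : β → ℝ} (hμ : Law μ) : push (prod μ ν) (fun p => p.2) = ν := by
  funext b
  unfold push prod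
  rw [Fintype.sum_prod_type]
  simp only
  have h1 : ∀ x : α, (∑ y : β, if y = b then μ x * ν y else 0) = μ x * ν b := by
    intro x
    rw [Finset.sum_eq_single b]
    · simp
    · intro c _ hc; simp [hc]
    · intro h; exact absurd (Finset.mem_univ b) h
  rw [Finset.sum_congr rfl (fun x _ => h1 x), ← Finset.sum_mul, hμ.2, one_mul]

theorem ent_eq_H_fst {μ : α → ℝ} {ν : β → ℝ} (hν : Law ν) :
    H (prod μ ν) (fun p => p.1) = ent μ := by
  unfold H; rw [push_fst hν]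

theorem ent_eq_H_snd {μ : α → ℝ} {ν : β → ℝ} (hμ : Law μ) :
    H (prod μ ν) (fun p => p.2) = ent ν := by
  unfold H; rw [push_snd hμ]

/-- `H(x, x+y) = ent μ + ent ν` -/
theorem H_fst_add {μ ν : V → ℝ} (hμ : Law μ) (hν : Law ν) :
    H (prod μ ν) (fun p => (p.1, p.1 + p.2)) = ent μ + ent ν := by
  rw [← ent_eq_H_fst (μ := μ) (ν := ν) hν, ← ent_eq_H_snd (μ := μ) (ν := ν) hμ]
  have h1 := H_prod hμ hν (fun x : V => x) (fun x : V => x)
  have h2 : H (prod μ ν) (fun p => (p.1, p.1 + p.2)) = H (prod μ ν) (fun p => (p.1, p.2)) :=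
    H_eq (law_prod hμ hν) (fun q => (q.1, q.2 - q.1)) (fun q => (q.1, q.1 + q.2))
      (fun p => by simp) (fun _ => rfl)
  have h3 := H_prod_fst hμ hν (fun x : V => x)
  have h4 := H_prod_snd hμ hν (fun x : V => x)
  rw [h2, h1, h3, h4]

theorem H_snd_add {μ ν : V → ℝ} (hμ : Law μ) (hν : Law ν) :
    H (prod μ ν) (fun p => (p.2, p.1 + p.2)) = ent μ + ent ν := by
  rw [← H_fst_add hμ hν]
  exact H_eq (law_prod hμ hν) (fun q => (q.2 - q.1, q.2)) (fun q => (q.2 - q.1, q.2))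
    (fun p => by simp) (fun p => by simp)

theorem kvm_prod {μ₀ μ ν : V → ℝ} (h0 : Law μ₀) (hμ : Law μ) (hν : Law ν) :
    E0 μ₀ (prod μ ν) (fun p => p.1 + p.2) (fun _ => ()) ≤
      ent (conv μ₀ μ) + ent (conv μ ν) - ent μ := by
  have h1 := kvm h0 (law_prod hμ hν) (fun p => p.1) (fun p => p.2)
    (by
      have := H_prod hμ hν (fun x : V => x) (fun x : V => x)
      rw [this, H_prod_fst hμ hν (fun x : V => x), H_prod_snd hμ hν (fun x : V => x)])
  rw [E0_push h0 (law_prod hμ hν) (fun p => p.1), push_fst hν, ent_eq_H_fst hν] at h1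
  exact h1

theorem kvm_prod' {μ₀ μ ν : V → ℝ} (h0 : Law μ₀) (hμ : Law μ) (hν : Law ν) :
    E0 μ₀ (prod μ ν) (fun p => p.1 + p.2) (fun _ => ()) ≤
      ent (conv μ₀ ν) + ent (conv μ ν) - ent ν := by
  have h1 := kvm h0 (law_prod hμ hν) (fun p => p.2) (fun p => p.1)
    (by
      have h := H_prod hμ hν (fun x : V => x) (fun x : V => x)
      have h2 : H (prod μ ν) (fun p => (p.2, p.1)) = H (prod μ ν) (fun p => (p.1, p.2)) :=
        H_eq (law_prod hμ hν) (fun q => (q.2, q.1)) (fun q => (q.2, q.1)) (fun _ => rfl)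
          (fun _ => rfl)
      rw [h2, h, H_prod_fst hμ hν (fun x : V => x), H_prod_snd hμ hν (fun x : V => x)]
      ring)
  rw [E0_push h0 (law_prod hμ hν) (fun p => p.2), push_snd hμ, ent_eq_H_snd hμ] at h1
  have e : (fun p : V × V => p.2 + p.1) = (fun p : V × V => p.1 + p.2) := by
    funext p; exact add_comm _ _
  rw [e] at h1
  exact h1


theorem dist_eq_zero (h2 : ∀ x : V, x + x = 0) {μ₀ μ₁ μ₂ : V → ℝ} (h0 : Law μ₀) (h1 : Law μ₁)
    (h2' : Law μ₂) (hmin : ∀ μ ν : V → ℝ, Law μ → Law ν → tau μ₀ μ₁ μ₂ ≤ tau μ₀ μ ν) :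
    dist μ₁ μ₂ = 0 := by
  set m := ent μ₀ with hm
  set e1 := ent μ₁ with he1
  set e2 := ent μ₂ with he2
  set u := ent (conv μ₁ μ₂) with hu
  set w11 := ent (conv μ₁ μ₁) with hw11
  set w22 := ent (conv μ₂ μ₂) with hw22
  set f1 := ent (conv μ₀ μ₁) with hf1
  set f2 := ent (conv μ₀ μ₂) with hf2
  set t := tau μ₀ μ₁ μ₂ with htdef
  have ht : t = (u - e1 / 2 - e2 / 2) + ((f1 - m / 2 - e1 / 2) + (f2 - m / 2 - e2 / 2)) / 20 := rfl
  -- the product laws
  set p12 : V × V → ℝ := prod μ₁ μ₂ with hp12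
  set p11 : V × V → ℝ := prod μ₁ μ₁ with hp11
  set p22 : V × V → ℝ := prod μ₂ μ₂ with hp22
  have l12 : Law p12 := law_prod h1 h2'
  have l11 : Law p11 := law_prod h1 h1
  have l22 : Law p22 := law_prod h2' h2'
  set w : (V × V) × (V × V) → ℝ := prod p11 p22 with hw
  have lw : Law w := law_prod l11 l22
  -- the two regroupings
  let eA : (V × V) × (V × V) ≃ (V × V) × (V × V) :=
    { toFun := fun p => ((p.1.1, p.2.2), (p.1.2, p.2.1))
      invFun := fun p => ((p.1.1, p.2.1), (p.2.2, p.1.2))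
      left_inv := fun _ => rfl
      right_inv := fun _ => rfl }
  let eB : (V × V) × (V × V) ≃ (V × V) × (V × V) :=
    { toFun := fun p => ((p.1.1, p.2.1), (p.1.2, p.2.2))
      invFun := fun p => ((p.1.1, p.2.1), (p.1.2, p.2.2))
      left_inv := fun _ => rfl
      right_inv := fun _ => rfl }
  have hA : (fun o => prod p12 p12 (eA o)) = w := by
    funext o
    simp only [hw, hp12, hp11, hp22, prod, eA, Equiv.coe_fn_mk]
    ring
  have hB : (fun o => prod p12 p12 (eB o)) = w := by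
    funext o
    simp only [hw, hp12, hp11, hp22, prod, eB, Equiv.coe_fn_mk]
    ring
  -- random variables: a = p.1.1, b = p.1.2, c = p.2.1, d = p.2.2
  set s := H w (fun p => p.1.1 + p.1.2 + p.2.1 + p.2.2) with hs
  set H3 := H w (fun p => (p.1.1 + p.2.1, p.1.2 + p.2.1, p.1.1 + p.1.2 + p.2.1 + p.2.2)) with hH3
  have uu : H p12 (fun p => p.1 + p.2) = u := rfl
  have w11e : H p11 (fun p => p.1 + p.2) = w11 := rfl
  have w22e : H p22 (fun p => p.1 + p.2) = w22 := rfl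
  -- M1
  have M1 := minimality_prod h0 hmin l12 l12 (fun p => p.1 + p.2) (fun _ => ())
    (fun p => p.1 + p.2) (fun _ => ())
  have M1a : H (prod p12 p12) (fun p => ((p.1.1 + p.1.2) + (p.2.1 + p.2.2), ((), ()))) = s := by
    have hq := H_equiv eA (prod p12 p12)
      (fun p : (V × V) × (V × V) => (((p.1.1 + p.1.2) + (p.2.1 + p.2.2), ((), ())) : V × (Unit × Unit)))
    rw [hA] at hq
    rw [← hq, hs]
    exact H_eq lw (fun q => q.1) (fun q => (q, ((), ()))) (fun p => by simp only [eA, Equiv.coe_fn_mk]; abel)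
      (fun p => by simp only [eA, Equiv.coe_fn_mk, Prod.mk.injEq, and_true]; abel)
  have M1b : H p12 (fun ω => (ω.1 + ω.2, ())) = u := H_unit_right l12 _
  have M1c := kvm_prod h0 h1 h2'
  have M1d := kvm_prod' h0 h1 h2'
  rw [M1a, M1b, H_unit l12] at M1
  -- M2
  have M2 := minimality_prod h0 hmin l12 l12 (fun p => p.1) (fun p => p.1 + p.2)
    (fun p => p.2) (fun p => p.1 + p.2)
  have M2a : H (prod p12 p12) (fun p => (p.1.1 + p.2.2, (p.1.1 + p.1.2, p.2.1 + p.2.2))) = H3 := by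
    have hq := H_equiv eA (prod p12 p12) (fun p : (V × V) × (V × V) =>
      ((p.1.1 + p.2.2, (p.1.1 + p.1.2, p.2.1 + p.2.2)) : V × (V × V)))
    rw [hA] at hq
    rw [← hq, hH3]
    exact H_eq lw (fun q => (q.1, q.2.2, q.2.1 + q.2.2)) (fun q => (q.1, (q.2.2 - q.2.1, q.2.1)))
      (fun p => by
        simp only [eA, Equiv.coe_fn_mk, Prod.mk.injEq, true_and]; abel)
      (fun p => by
        simp only [eA, Equiv.coe_fn_mk, Prod.mk.injEq, true_and, and_true]; abel)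
  have M2b : H p12 (fun ω => (ω.1, ω.1 + ω.2)) = e1 + e2 := H_fst_add h1 h2'
  have M2c : H p12 (fun ω => (ω.2, ω.1 + ω.2)) = e1 + e2 := H_snd_add h1 h2'
  have M2d := E0_le_of_law h0 l12 (fun p => p.1) (fun p => p.1 + p.2) (push_fst h2')
  have M2e := E0_le_of_law h0 l12 (fun p => p.2) (fun p => p.1 + p.2) (push_snd h1)
  rw [M2a, M2b, M2c, uu] at M2
  rw [uu] at M2d M2e
  -- M3
  have M3 := minimality_prod h0 hmin l11 l22 (fun p => p.1 + p.2) (fun _ => ())
    (fun p => p.1 + p.2) (fun _ => ())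
  have M3a : H (prod p11 p22) (fun p => ((p.1.1 + p.1.2) + (p.2.1 + p.2.2), ((), ()))) = s := by
    rw [hs]
    exact H_eq lw (fun q => q.1) (fun q => (q, ((), ()))) (fun p => by simp only []; abel)
      (fun p => by simp only [Prod.mk.injEq, and_true]; abel)
  have M3b : H p11 (fun ω => (ω.1 + ω.2, ())) = w11 := H_unit_right l11 _
  have M3c : H p22 (fun ω => (ω.1 + ω.2, ())) = w22 := H_unit_right l22 _
  have M3d := kvm_prod h0 h1 h1
  have M3e := kvm_prod h0 h2' h2'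
  rw [M3a, M3b, M3c, H_unit l11, H_unit l22] at M3
  -- M4
  have M4 := minimality_prod h0 hmin l11 l22 (fun p => p.1) (fun p => p.1 + p.2)
    (fun p => p.1) (fun p => p.1 + p.2)
  have M4a : H (prod p11 p22) (fun p => (p.1.1 + p.2.1, (p.1.1 + p.1.2, p.2.1 + p.2.2))) = H3 := by
    rw [hH3]
    exact H_eq lw (fun q => (q.1, q.1 + q.2.1, q.2.1 + q.2.2))
      (fun q => (q.1, (q.1 + q.2.1, q.2.2 - (q.1 + q.2.1))))
      (fun p => by
        simp only [Prod.mk.injEq, true_and]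
        refine ⟨?_, by abel⟩
        have := h2 p.1.1
        calc p.1.1 + p.2.1 + (p.1.1 + p.1.2) = (p.1.1 + p.1.1) + (p.1.2 + p.2.1) := by abel
          _ = p.1.2 + p.2.1 := by rw [this, zero_add])
      (fun p => by
        simp only [Prod.mk.injEq, true_and]
        have := h2 p.2.1
        have e : p.1.1 + p.2.1 + (p.1.2 + p.2.1) = p.1.1 + p.1.2 := by
          calc p.1.1 + p.2.1 + (p.1.2 + p.2.1) = (p.1.1 + p.1.2) + (p.2.1 + p.2.1) := by abel
            _ = p.1.1 + p.1.2 := by rw [this, add_zero]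
        refine ⟨e, ?_⟩
        rw [e]; abel)
  have M4b : H p11 (fun ω => (ω.1, ω.1 + ω.2)) = e1 + e1 := H_fst_add h1 h1
  have M4c : H p22 (fun ω => (ω.1, ω.1 + ω.2)) = e2 + e2 := H_fst_add h2' h2'
  have M4d := E0_le_of_law h0 l11 (fun p => p.1) (fun p => p.1 + p.2) (push_fst h1)
  have M4e := E0_le_of_law h0 l22 (fun p => p.1) (fun p => p.1 + p.2) (push_fst h2')
  rw [M4a, M4b, M4c, w11e, w22e] at M4
  rw [w11e] at M4d
  rw [w22e] at M4e
  -- endgame
  have EG := endgame h0 h2 hmin lw (fun p => p.1.1 + p.2.1) (fun p => p.1.2 + p.2.1)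
    (fun p => p.1.1 + p.1.2) (fun p => p.1.1 + p.1.2 + p.2.1 + p.2.2)
    (fun p => by
      calc p.1.1 + p.2.1 + (p.1.2 + p.2.1) + (p.1.1 + p.1.2)
          = (p.1.1 + p.1.1) + (p.1.2 + p.1.2) + (p.2.1 + p.2.1) := by abel
        _ = 0 := by rw [h2 p.1.1, h2 p.1.2, h2 p.2.1]; simp)
  have hUS : H w (fun p => (p.1.1 + p.2.1, p.1.1 + p.1.2 + p.2.1 + p.2.2)) = u + u := by
    have hq := H_equiv eB (prod p12 p12) (fun p : (V × V) × (V × V) =>
      (((p.1.1 + p.1.2), (p.2.1 + p.2.2)) : V × V))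
    rw [hB, H_prod l12 l12 (fun p => p.1 + p.2) (fun p => p.1 + p.2), uu] at hq
    rw [← hq]
    exact H_eq lw (fun q => (q.1, q.2 - q.1)) (fun q => (q.1, q.1 + q.2))
      (fun p => by simp only [eB, Equiv.coe_fn_mk, Prod.mk.injEq, true_and]; abel)
      (fun p => by simp only [eB, Equiv.coe_fn_mk, Prod.mk.injEq, true_and]; abel)
  have hVS : H w (fun p => (p.1.2 + p.2.1, p.1.1 + p.1.2 + p.2.1 + p.2.2)) = u + u := by
    have hq := H_equiv eA (prod p12 p12) (fun p : (V × V) × (V × V) =>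
      (((p.1.1 + p.1.2), (p.2.1 + p.2.2)) : V × V))
    rw [hA, H_prod l12 l12 (fun p => p.1 + p.2) (fun p => p.1 + p.2), uu] at hq
    rw [← hq]
    exact H_eq lw (fun q => (q.2 - q.1, q.1)) (fun q => (q.2, q.1 + q.2))
      (fun p => by simp only [eA, Equiv.coe_fn_mk, Prod.mk.injEq, and_true]; abel)
      (fun p => by simp only [eA, Equiv.coe_fn_mk, Prod.mk.injEq, true_and]; abel)
  have hWS : H w (fun p => (p.1.1 + p.1.2, p.1.1 + p.1.2 + p.2.1 + p.2.2)) = w11 + w22 := by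
    have hq := H_prod l11 l22 (fun p => p.1 + p.2) (fun p => p.1 + p.2)
    rw [w11e, w22e] at hq
    rw [← hq]
    exact H_eq lw (fun q => (q.1, q.2 - q.1)) (fun q => (q.1, q.1 + q.2))
      (fun p => by simp only [Prod.mk.injEq, true_and]; abel)
      (fun p => by simp only [Prod.mk.injEq, true_and]; abel)
  rw [hUS, hVS, hWS] at EG
  -- E0 terms of the endgame
  have kU1 := kvm h0 lw (fun p => p.1.1) (fun p => p.2.1) (by
    have hq := H_prod l11 l22 (fun p => p.1) (fun p => p.1)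
    rw [← hw] at hq
    rw [hq, H_prod_fst l11 l22 (fun p => p.1), H_prod_snd l11 l22 (fun p => p.1)])
  have lawa : push w (fun p => p.1.1) = μ₁ := by
    have h3 := push_push w (fun p => p.1) (fun q : V × V => q.1)
    rw [← h3, hw, push_fst l22, hp11, push_fst h1]
  have lawc : push w (fun p => p.2.1) = μ₂ := by
    have h3 := push_push w (fun p => p.2) (fun q : V × V => q.1)
    rw [← h3, hw, push_snd l11, hp22, push_fst h2']
  rw [E0_push h0 lw (fun p => p.1.1), lawa] at kU1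
  have ha : H w (fun p => p.1.1) = e1 := by unfold H; rw [lawa]
  have hc : H w (fun p => p.2.1) = e2 := by unfold H; rw [lawc]
  have hac : H w (fun p => p.1.1 + p.2.1) = u := by
    have hq := H_equiv eB (prod p12 p12) (fun p : (V × V) × (V × V) => p.1.1 + p.1.2)
    rw [hB, H_prod_fst l12 l12 (fun p => p.1 + p.2), uu] at hq
    rw [← hq]
    rfl
  have hbc : H w (fun p => p.1.2 + p.2.1) = u := by
    have hq := H_equiv eA (prod p12 p12) (fun p : (V × V) × (V × V) => p.2.1 + p.2.2)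
    rw [hA, H_prod_snd l12 l12 (fun p => p.1 + p.2), uu] at hq
    rw [← hq]
    rfl
  have kV2 := kvm h0 lw (fun p => p.2.1) (fun p => p.1.2) (by
    have hq := H_prod l11 l22 (fun p => p.2) (fun p => p.1)
    rw [← hw] at hq
    have h3 : H w (fun p => (p.2.1, p.1.2)) = H w (fun p => (p.1.2, p.2.1)) :=
      H_eq lw (fun q => (q.2, q.1)) (fun q => (q.2, q.1)) (fun _ => rfl) (fun _ => rfl)
    rw [h3, hq, H_prod_fst l11 l22 (fun p => p.2), H_prod_snd l11 l22 (fun p => p.1)]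
    ring)
  rw [E0_push h0 lw (fun p => p.2.1), lawc] at kV2
  have hcomm : (fun p : (V × V) × (V × V) => p.2.1 + p.1.2) = (fun p => p.1.2 + p.2.1) := by
    funext p; exact add_comm _ _
  rw [hcomm, hbc, hc] at kV2
  rw [hac, ha] at kU1
  have cU := E0_cond_le h0 lw (fun p => p.1.1 + p.2.1)
    (fun p => p.1.1 + p.1.2 + p.2.1 + p.2.2)
  have cV := E0_cond_le h0 lw (fun p => p.1.2 + p.2.1)
    (fun p => p.1.1 + p.1.2 + p.2.1 + p.2.2)
  -- I_1 >= 0
  have sub := H_submod lw (fun p => p.1.1 + p.2.1) (fun p => p.1.2 + p.2.1)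
    (fun p => p.1.1 + p.1.2 + p.2.1 + p.2.2)
  rw [hUS, hVS] at sub
  have hd0 : 0 ≤ dist μ₁ μ₂ := dist_nonneg h1 h2'
  have hd : dist μ₁ μ₂ = u - e1 / 2 - e2 / 2 := rfl
  rw [hd] at hd0 ⊢
  rw [← hs, ← hH3] at sub
  rw [← hs] at cU cV EG
  rw [← hH3] at EG
  refine le_antisymm ?_ hd0
  linarith

end H137.PFR
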