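import Pool.Agent.H137R2.PFR.Defs
import Pool.Agent.H137R2.PFR.Basic
import Pool.Agent.H137R2.PFR.Indep
import Pool.Agent.H137R2.PFR.ExistsMin
import Pool.Agent.H137R2.PFR.Kvm
import Pool.Agent.H137R2.PFR.Main
import Pool.Agent.H137R2.PFR.Hundred
set_option autoImplicit false

open scoped Classical

namespace H137.PFR


variable {V : Type*} [AddCommGroup V] [Fintype V]

/-- entropy of the image of `μ` in `V ⧸ G` -/
noncomputable def entMod (μ : V → ℝ) (G : AddSubgroup V) : ℝ :=
  H μ (fun x : V => (QuotientAddGroup.mk x : V ⧸ G))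

theorem push_id {α : Type*} [Fintype α] (w : α → ℝ) : push w (fun x => x) = w := by
  funext a
  unfold push
  rw [Finset.sum_ite_eq' Finset.univ a w]
  simp

/-- entropy is at most the logarithm of the size of the support -/
theorem ent_le_log_card {α : Type*} [Fintype α] {p : α → ℝ} (hp : Law p) (S : Finset α)
    (hS : ∀ x, x ∉ S → p x = 0) : ent p ≤ Real.log S.card := by
  have hsum : ∑ x ∈ S, p x = 1 := by
    rw [← hp.2]
    exact Finset.sum_subset (Finset.subset_univ S) (fun x _ hx => hS x hx)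
  have hne : S.Nonempty := by
    rcases S.eq_empty_or_nonempty with h | h
    · rw [h, Finset.sum_empty] at hsum
      exact absurd hsum (by norm_num)
    · exact h
  have hm : (0 : ℝ) < S.card := by exact_mod_cast hne.card_pos
  have h1 : ent p = ∑ x ∈ S, Real.negMulLog (p x) := by
    unfold ent
    refine (Finset.sum_subset (Finset.subset_univ S) (fun x _ hx => ?_)).symm
    rw [hS x hx, Real.negMulLog_zero]
  have h2 := Real.concaveOn_negMulLog.le_map_sum (t := S) (w := fun _ => (S.card : ℝ)⁻¹)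
    (p := p) (fun _ _ => (inv_pos.2 hm).le)
    (by rw [Finset.sum_const, nsmul_eq_mul, mul_inv_cancel₀ hm.ne']) (fun x _ => hp.1 x)
  simp only [smul_eq_mul] at h2
  rw [← Finset.mul_sum, ← Finset.mul_sum, hsum, mul_one, Real.negMulLog] at h2
  rw [h1]
  have h3 : (S.card : ℝ)⁻¹ * ∑ x ∈ S, Real.negMulLog (p x) ≤ (S.card : ℝ)⁻¹ * Real.log S.card := by
    refine h2.trans (le_of_eq ?_)
    rw [Real.log_inv]
    ring
  exact le_of_mul_le_mul_left h3 (inv_pos.2 hm)

theorem fiber_card (G : AddSubgroup V) (c : V ⧸ G) :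
    (Finset.univ.filter (fun x : V => (QuotientAddGroup.mk x : V ⧸ G) = c)).card = Nat.card G := by
  obtain ⟨x0, rfl⟩ := QuotientAddGroup.mk_surjective c
  rw [Nat.card_eq_fintype_card, ← Finset.card_univ]
  symm
  refine Finset.card_bij (fun (g : G) _ => x0 + (g : V)) ?_ ?_ ?_
  · intro g _
    rw [Finset.mem_filter]
    refine ⟨Finset.mem_univ _, ?_⟩
    rw [QuotientAddGroup.eq]
    have h1 : -(x0 + (g : V)) + x0 = -(g : V) := by abel
    rw [h1]
    exact G.neg_mem g.2
  · intro g _ g' _ h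
    exact Subtype.ext (add_left_cancel h)
  · intro y hy
    have h1 := (Finset.mem_filter.1 hy).2
    rw [eq_comm, QuotientAddGroup.eq] at h1
    exact ⟨⟨-x0 + y, h1⟩, Finset.mem_univ _, by simp⟩

theorem ent_le_entMod {μ : V → ℝ} (hμ : Law μ) (G : AddSubgroup V) :
    ent μ ≤ entMod μ G + Real.log (Nat.card G) := by
  have h1 : ent μ = H μ (fun x : V => (x, (QuotientAddGroup.mk x : V ⧸ G))) := by
    have h2 : ent μ = H μ (fun x : V => x) := by
      unfold H
      rw [push_id]
    rw [h2]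
    exact H_eq hμ (fun x => (x, (QuotientAddGroup.mk x : V ⧸ G))) Prod.fst (fun _ => rfl)
      (fun _ => rfl)
  rw [h1, H_chain hμ]
  unfold entMod
  have hlaw := law_push hμ (fun x : V => (QuotientAddGroup.mk x : V ⧸ G))
  have h3 : ∀ c : V ⧸ G, push μ (fun x : V => (QuotientAddGroup.mk x : V ⧸ G)) c
      * ent (cnd μ (fun x : V => x) (fun x : V => (QuotientAddGroup.mk x : V ⧸ G)) c)
      ≤ push μ (fun x : V => (QuotientAddGroup.mk x : V ⧸ G)) c * Real.log (Nat.card G) := by
    intro c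
    by_cases hc : push μ (fun x : V => (QuotientAddGroup.mk x : V ⧸ G)) c = 0
    · rw [hc, zero_mul, zero_mul]
    · refine mul_le_mul_of_nonneg_left ?_ (hlaw.1 c)
      rw [← fiber_card G c]
      refine ent_le_log_card (law_cnd hμ _ _ hc) _ (fun x hx => ?_)
      rw [Finset.mem_filter] at hx
      have h4 : push μ (fun ω : V => (ω, (QuotientAddGroup.mk ω : V ⧸ G))) (x, c) = 0 := by
        unfold push
        apply Finset.sum_eq_zero
        intro ω _
        rw [if_neg]
        intro h
        rw [Prod.mk.injEq] at h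
        apply hx
        refine ⟨Finset.mem_univ _, ?_⟩
        rw [← h.1]
        exact h.2
      change push μ (fun ω : V => (ω, (QuotientAddGroup.mk ω : V ⧸ G))) (x, c) / _ = 0
      rw [h4, zero_div]
  have h4 := Finset.sum_le_sum (fun c (_ : c ∈ Finset.univ) => h3 c)
  rw [← Finset.sum_mul, hlaw.2, one_mul] at h4
  linarith

theorem push_conv_mk (μ ν : V → ℝ) (G : AddSubgroup V) :
    push (conv μ ν) (fun x : V => (QuotientAddGroup.mk x : V ⧸ G)) =
      conv (push μ (fun x : V => (QuotientAddGroup.mk x : V ⧸ G)))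
        (push ν (fun x : V => (QuotientAddGroup.mk x : V ⧸ G))) := by
  have h1 : prod (push μ (fun x : V => (QuotientAddGroup.mk x : V ⧸ G)))
      (push ν (fun x : V => (QuotientAddGroup.mk x : V ⧸ G))) =
      push (prod μ ν) (fun p : V × V => ((QuotientAddGroup.mk p.1 : V ⧸ G),
        (QuotientAddGroup.mk p.2 : V ⧸ G))) := by
    funext p
    obtain ⟨a, b⟩ := p
    exact (push_prod μ ν _ _ a b).symm
  unfold conv
  rw [h1, push_push, push_push]
  rfl

theorem conv_invariant {μ ν : V → ℝ} (G : AddSubgroup V)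
    (hG : ∀ h ∈ G, ∀ x, ν (x + h) = ν x) : ∀ h ∈ G, ∀ x, conv μ ν (x + h) = conv μ ν x := by
  intro h hh x
  have key : ∀ y : V, conv μ ν y = ∑ a : V, μ a * ν (y - a) := by
    intro y
    unfold conv push prod
    rw [Fintype.sum_prod_type]
    refine Finset.sum_congr rfl fun a _ => ?_
    rw [Finset.sum_eq_single (y - a)]
    · rw [if_pos (add_sub_cancel a y)]
    · intro b _ hb
      rw [if_neg]
      intro h
      apply hb
      exact eq_sub_of_add_eq' h
    · intro h
      exact absurd (Finset.mem_univ _) h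
  rw [key, key]
  refine Finset.sum_congr rfl fun a _ => ?_
  rw [show x + h - a = (x - a) + h by abel, hG h hh]

theorem sum_fiber {f : V → ℝ} (G : AddSubgroup V) (F : V ⧸ G → ℝ)
    (hf : ∀ x, f x = F (QuotientAddGroup.mk x)) :
    ∑ x, f x = (Nat.card G : ℝ) * ∑ c, F c := by
  rw [← Finset.sum_fiberwise Finset.univ (fun x : V => (QuotientAddGroup.mk x : V ⧸ G)) f,
    Finset.mul_sum]
  refine Finset.sum_congr rfl fun c _ => ?_
  rw [← fiber_card G c, ← nsmul_eq_mul, ← Finset.sum_const]
  refine Finset.sum_congr rfl fun x hx => ?_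
  rw [hf x, (Finset.mem_filter.1 hx).2]

/-- entropy of an invariant law -/
theorem ent_of_invariant {ρ : V → ℝ} (hρ : Law ρ) (G : AddSubgroup V)
    (hG : ∀ h ∈ G, ∀ x, ρ (x + h) = ρ x) : ent ρ = entMod ρ G + Real.log (Nat.card G) := by
  have hm : (0 : ℝ) < Nat.card G := by exact_mod_cast Nat.card_pos
  set P := push ρ (fun x : V => (QuotientAddGroup.mk x : V ⧸ G)) with hP
  have hlaw : Law P := law_push hρ _
  have h1 : ∀ x : V, P (QuotientAddGroup.mk x) = (Nat.card G : ℝ) * ρ x := by
    intro x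
    have h2 : P (QuotientAddGroup.mk x) = ∑ y ∈ Finset.univ.filter
        (fun y : V => (QuotientAddGroup.mk y : V ⧸ G) = QuotientAddGroup.mk x), ρ y := by
      rw [hP, Finset.sum_filter]
      unfold push
      refine Finset.sum_congr rfl fun y _ => ?_
      by_cases h : (QuotientAddGroup.mk y : V ⧸ G) = QuotientAddGroup.mk x
      · rw [if_pos h, if_pos h]
      · rw [if_neg h, if_neg h]
    rw [h2, ← fiber_card G (QuotientAddGroup.mk x), ← nsmul_eq_mul, ← Finset.sum_const]
    refine Finset.sum_congr rfl fun y hy => ?_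
    have h3 := (Finset.mem_filter.1 hy).2
    have h4 : -x + y ∈ G := by
      rw [← QuotientAddGroup.eq]
      exact h3.symm
    have h5 := hG _ h4 x
    rw [← h5]
    congr 1
    abel
  have h2 : ∀ x : V, Real.negMulLog (ρ x) =
      (fun c : V ⧸ G => Real.negMulLog (P c / Nat.card G)) (QuotientAddGroup.mk x) := by
    intro x
    simp only
    rw [h1, mul_div_cancel_left₀ _ hm.ne']
  unfold ent
  rw [sum_fiber G (fun c : V ⧸ G => Real.negMulLog (P c / Nat.card G)) h2, Finset.mul_sum]
  have h3 : ∀ c : V ⧸ G, (Nat.card G : ℝ) * Real.negMulLog (P c / Nat.card G)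
      = Real.negMulLog (P c) + P c * Real.log (Nat.card G) := by
    intro c
    unfold Real.negMulLog
    by_cases hc : P c = 0
    · rw [hc]
      simp
    · rw [Real.log_div hc hm.ne']
      field_simp
      ring
  simp_rw [h3]
  rw [Finset.sum_add_distrib, ← Finset.sum_mul, hlaw.2, one_mul]
  rfl

theorem entMod_add_log_le {μ ν : V → ℝ} (hμ : Law μ) (hν : Law ν) (G : AddSubgroup V)
    (hG : ∀ h ∈ G, ∀ x, ν (x + h) = ν x) :
    entMod μ G + Real.log (Nat.card G) ≤ ent (conv μ ν) := by
  rw [ent_of_invariant (law_conv hμ hν) G (conv_invariant G hG)]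
  have h1 := ent_le_conv_left (law_push hμ (fun x : V => (QuotientAddGroup.mk x : V ⧸ G)))
    (law_push hν (fun x : V => (QuotientAddGroup.mk x : V ⧸ G)))
  rw [← push_conv_mk] at h1
  have h2 : entMod μ G ≤ entMod (conv μ ν) G := h1
  linarith

/-- entropic polynomial Freiman-Ruzsa theorem in characteristic 2 -/
theorem pfr2 (h2 : ∀ x : V, x + x = 0) {μ : V → ℝ} (hμ : Law μ) :
    ∃ G : AddSubgroup V, entMod μ G ≤ 22 * (ent (conv μ μ) - ent μ) ∧
      |Real.log (Nat.card G) - ent μ| ≤ 22 * (ent (conv μ μ) - ent μ) := by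
  obtain ⟨μ₁, μ₂, hμ₁, hμ₂, hmin⟩ := exists_min μ
  have hd := dist_eq_zero h2 hμ hμ₁ hμ₂ hmin
  obtain ⟨G, hG1, he1, hG2, he2⟩ := hundred hμ₁ hμ₂ hd
  refine ⟨G, ?_⟩
  have ht := hmin μ μ hμ hμ
  unfold tau at ht
  rw [hd] at ht
  have hκ : dist μ μ = ent (conv μ μ) - ent μ := by
    unfold dist
    ring
  have key : ∀ ν : V → ℝ, Law ν → (∀ h ∈ G, ∀ x, ν (x + h) = ν x) →
      ent ν = Real.log (Nat.card G) → dist μ ν ≤ 11 * dist μ μ →
      entMod μ G ≤ 22 * (ent (conv μ μ) - ent μ) ∧
      |Real.log (Nat.card G) - ent μ| ≤ 22 * (ent (conv μ μ) - ent μ) := by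
    intro ν hν hinv hent hdist
    have e1 := entMod_add_log_le hμ hν G hinv
    have e2 := ent_le_entMod hμ G
    have e3 : 0 ≤ entMod μ G := H_nonneg hμ _
    have e4 : dist μ ν = ent (conv μ ν) - ent μ / 2 - ent ν / 2 := rfl
    rw [hent] at e4
    have e5 : entMod μ G ≤ 22 * (ent (conv μ μ) - ent μ) := by linarith
    refine ⟨e5, ?_⟩
    rw [abs_le]
    constructor <;> linarith
  rcases le_total (dist μ μ₁) (dist μ μ₂) with h | h
  · exact key μ₁ hμ₁ hG1 he1 (by linarith)
  · exact key μ₂ hμ₂ hG2 he2 (by linarith)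

end H137.PFR
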