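import Pool.Agent.H137R2.PFR.Defs
import Pool.Agent.H137R2.PFR.Basic
set_option autoImplicit false

open scoped Classical

/-! B: averaging the minimality. -/

namespace H137.PFR

variable {Ω Ω' α β γ δ : Type*} [Fintype Ω] [Fintype Ω'] [Fintype α] [Fintype β] [Fintype γ]
  [Fintype δ]

variable {V : Type*} [AddCommGroup V] [Fintype V]

theorem B_push_id (w : Ω → ℝ) : push w (fun ω => ω) = w := by
  funext a
  unfold push
  simp

/-- conditional law of the sum of two conditionally independent variables -/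
theorem B_cnd_add {w : Ω → ℝ} (X Y : Ω → V) (C : Ω → γ) (hCI : CI w X Y C) {c : γ}
    (hc : push w C c ≠ 0) :
    cnd w (fun ω => X ω + Y ω) C c = conv (cnd w X C c) (cnd w Y C c) := by
  funext v
  unfold cnd conv
  have h1 : push w (fun ω => (X ω + Y ω, C ω)) =
      push (push w (fun ω => (X ω, Y ω, C ω))) (fun q : V × V × γ => (q.1 + q.2.1, q.2.2)) :=
    (push_push w (fun ω => (X ω, Y ω, C ω)) (fun q : V × V × γ => (q.1 + q.2.1, q.2.2))).symm
  rw [h1]
  have h2 : ∀ x y, push w (fun ω => (X ω, Y ω, C ω)) (x, y, c) =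
      (push w (fun ω => (X ω, C ω)) (x, c) / push w C c) *
        (push w (fun ω => (Y ω, C ω)) (y, c) / push w C c) * push w C c := by
    intro x y
    have := hCI x y c
    field_simp
    rw [← this]
  rw [div_eq_iff hc]
  unfold push prod
  rw [Finset.sum_mul]
  rw [Fintype.sum_prod_type, Fintype.sum_prod_type]
  refine Finset.sum_congr rfl fun x _ => ?_
  rw [Fintype.sum_prod_type]
  refine Finset.sum_congr rfl fun y _ => ?_
  rw [Finset.sum_eq_single c]
  · have h3 := h2 x y
    unfold push at h3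
    by_cases h : x + y = v
    · rw [if_pos (show ((x + y, c) : V × γ) = (v, c) by rw [h]), if_pos h]
      exact h3
    · rw [if_neg (fun h' => h (Prod.mk.inj h').1), if_neg h, zero_mul]
  · intro c' _ hc'
    rw [if_neg (fun h' => hc' (Prod.mk.inj h').2)]
  · intro h
    exact absurd (Finset.mem_univ _) h

omit [Fintype γ] [AddCommGroup V] in
theorem B_push_snd {μ₀ : V → ℝ} (h0 : Law μ₀) (w : Ω → ℝ) (C : Ω → γ) (c : γ) :
    push (prod μ₀ w) (fun p => C p.2) c = push w C c := by
  unfold push prod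
  rw [Fintype.sum_prod_type]
  have : ∀ x : V, (∑ y : Ω, if C y = c then μ₀ x * w y else 0) =
      μ₀ x * ∑ y : Ω, if C y = c then w y else 0 := by
    intro x
    rw [Finset.mul_sum]
    refine Finset.sum_congr rfl fun y _ => ?_
    split_ifs <;> simp
  simp only [this]
  rw [← Finset.sum_mul, h0.2, one_mul]

theorem B_cnd_E0 {μ₀ : V → ℝ} (h0 : Law μ₀) (w : Ω → ℝ) (X : Ω → V) (C : Ω → γ) {c : γ}
    (hc : push w C c ≠ 0) :
    cnd (prod μ₀ w) (fun p => p.1 + X p.2) (fun p => C p.2) c = conv μ₀ (cnd w X C c) := by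
  funext v
  unfold cnd conv
  rw [B_push_snd h0]
  have h1 : push (prod μ₀ w) (fun p => (p.1 + X p.2, C p.2)) =
      push (push (prod μ₀ w) (fun p => (p.1, (X p.2, C p.2))))
        (fun q : V × V × γ => (q.1 + q.2.1, q.2.2)) :=
    (push_push (prod μ₀ w) (fun p => (p.1, (X p.2, C p.2)))
      (fun q : V × V × γ => (q.1 + q.2.1, q.2.2))).symm
  rw [h1]
  have h2 : ∀ x y, push (prod μ₀ w) (fun p => (p.1, (X p.2, C p.2))) (x, (y, c)) =
      μ₀ x * (push w (fun ω => (X ω, C ω)) (y, c) / push w C c) * push w C c := by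
    intro x y
    have h3 := push_prod μ₀ w (fun x => x) (fun ω => (X ω, C ω)) x (y, c)
    rw [B_push_id] at h3
    refine h3.trans ?_
    field_simp
  rw [div_eq_iff hc]
  generalize push (prod μ₀ w) (fun p => (p.1, (X p.2, C p.2))) = P at h2 ⊢
  unfold push prod
  unfold push at h2
  rw [Finset.sum_mul]
  rw [Fintype.sum_prod_type, Fintype.sum_prod_type]
  refine Finset.sum_congr rfl fun x _ => ?_
  rw [Fintype.sum_prod_type]
  refine Finset.sum_congr rfl fun y _ => ?_
  rw [Finset.sum_eq_single c]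
  · have h3 := h2 x y
    by_cases h : x + y = v
    · rw [if_pos (show ((x + y, c) : V × γ) = (v, c) by rw [h]), if_pos h]
      exact h3
    · rw [if_neg (fun h' => h (Prod.mk.inj h').1), if_neg h, zero_mul]
  · intro c' _ hc'
    rw [if_neg (fun h' => hc' (Prod.mk.inj h').2)]
  · intro h
    exact absurd (Finset.mem_univ _) h

theorem minimality {μ₀ : V → ℝ} (h0 : Law μ₀) {t : ℝ}
    (ht : ∀ μ ν : V → ℝ, Law μ → Law ν → t ≤ tau μ₀ μ ν)
    {w : Ω → ℝ} (hw : Law w) (X Y : Ω → V) (C : Ω → γ) (hCI : CI w X Y C) :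
    t ≤ (H w (fun ω => (X ω + Y ω, C ω)) - H w C)
      - (H w (fun ω => (X ω, C ω)) - H w C) / 2 - (H w (fun ω => (Y ω, C ω)) - H w C) / 2
      + ((E0 μ₀ w X C - H w C) - ent μ₀ / 2 - (H w (fun ω => (X ω, C ω)) - H w C) / 2
        + ((E0 μ₀ w Y C - H w C) - ent μ₀ / 2 - (H w (fun ω => (Y ω, C ω)) - H w C) / 2)) / 20 := by
  have hp := law_push hw C
  have e1 : H w (fun ω => (X ω + Y ω, C ω)) - H w C =
      ∑ c, push w C c * ent (conv (cnd w X C c) (cnd w Y C c)) := by
    rw [H_chain hw (fun ω => X ω + Y ω) C, add_sub_cancel_left]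
    refine Finset.sum_congr rfl fun c _ => ?_
    by_cases hc : push w C c = 0
    · rw [hc, zero_mul, zero_mul]
    · rw [B_cnd_add X Y C hCI hc]
  have e2 : ∀ X : Ω → V, H w (fun ω => (X ω, C ω)) - H w C =
      ∑ c, push w C c * ent (cnd w X C c) := by
    intro X
    rw [H_chain hw X C, add_sub_cancel_left]
  have e3 : ∀ X : Ω → V, E0 μ₀ w X C - H w C = ∑ c, push w C c * ent (conv μ₀ (cnd w X C c)) := by
    intro X
    unfold E0
    rw [H_chain (law_prod h0 hw) (fun p : V × Ω => p.1 + X p.2) (fun p => C p.2),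
      H_prod_snd h0 hw C, add_sub_cancel_left]
    refine Finset.sum_congr rfl fun c _ => ?_
    rw [B_push_snd h0]
    by_cases hc : push w C c = 0
    · rw [hc, zero_mul, zero_mul]
    · rw [B_cnd_E0 h0 w X C hc]
  have e4 : ∑ c, push w C c * (ent μ₀) = ent μ₀ := by
    rw [← Finset.sum_mul, hp.2, one_mul]
  have e5 : t = ∑ c, push w C c * t := by
    rw [← Finset.sum_mul, hp.2, one_mul]
  have e6 : ∑ c, push w C c * t ≤
      ∑ c, push w C c * tau μ₀ (cnd w X C c) (cnd w Y C c) := by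
    refine Finset.sum_le_sum fun c _ => ?_
    by_cases hc : push w C c = 0
    · rw [hc, zero_mul, zero_mul]
    · exact mul_le_mul_of_nonneg_left (ht _ _ (law_cnd hw X C hc) (law_cnd hw Y C hc)) (hp.1 c)
  rw [e1, e2, e2, e3, e3, e5]
  refine e6.trans (le_of_eq ?_)
  conv_rhs => rw [← e4]
  simp only [Finset.sum_div, ← Finset.sum_sub_distrib, ← Finset.sum_add_distrib]
  refine Finset.sum_congr rfl fun c _ => ?_
  unfold tau dist
  ring

end H137.PFR
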