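import Pool.Agent.H137R2.PFR.Defs
set_option autoImplicit false

open scoped Classical

namespace H137.PFR

variable {Ω Ω' α β γ δ : Type*} [Fintype Ω] [Fintype Ω'] [Fintype α] [Fintype β] [Fintype γ]
  [Fintype δ]

/-! ### A: basic facts -/

theorem law_push {w : Ω → ℝ} (hw : Law w) (X : Ω → α) : Law (push w X) := by sorry

theorem push_push (w : Ω → ℝ) (X : Ω → α) (f : α → β) :
    push (push w X) f = push w (fun ω => f (X ω)) := by sorry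

theorem law_prod {w : Ω → ℝ} {w' : Ω' → ℝ} (hw : Law w) (hw' : Law w') : Law (prod w w') := by
  sorry

theorem push_prod (w : Ω → ℝ) (w' : Ω' → ℝ) (X : Ω → α) (Y : Ω' → β) (a : α) (b : β) :
    push (prod w w') (fun p => (X p.1, Y p.2)) (a, b) = push w X a * push w' Y b := by sorry

theorem H_nonneg {w : Ω → ℝ} (hw : Law w) (X : Ω → α) : 0 ≤ H w X := by sorry

theorem H_comp_le {w : Ω → ℝ} (hw : Law w) (X : Ω → α) (f : α → β) :
    H w (fun ω => f (X ω)) ≤ H w X := by sorry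

theorem H_eq {w : Ω → ℝ} (hw : Law w) {X : Ω → α} {Y : Ω → β} (f : α → β) (g : β → α)
    (hf : ∀ ω, f (X ω) = Y ω) (hg : ∀ ω, g (Y ω) = X ω) : H w X = H w Y := by sorry

theorem H_unit {w : Ω → ℝ} (hw : Law w) : H w (fun _ => ()) = 0 := by sorry

theorem H_submod {w : Ω → ℝ} (hw : Law w) (X : Ω → α) (Y : Ω → β) (Z : Ω → γ) :
    H w (fun ω => (X ω, Y ω, Z ω)) + H w Z ≤
      H w (fun ω => (X ω, Z ω)) + H w (fun ω => (Y ω, Z ω)) := by sorry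

theorem H_subadd {w : Ω → ℝ} (hw : Law w) (X : Ω → α) (Y : Ω → β) :
    H w (fun ω => (X ω, Y ω)) ≤ H w X + H w Y := by sorry

theorem H_prod {w : Ω → ℝ} {w' : Ω' → ℝ} (hw : Law w) (hw' : Law w') (X : Ω → α) (Y : Ω' → β) :
    H (prod w w') (fun p => (X p.1, Y p.2)) = H w X + H w' Y := by sorry

theorem H_prod_fst {w : Ω → ℝ} {w' : Ω' → ℝ} (hw : Law w) (hw' : Law w') (X : Ω → α) :
    H (prod w w') (fun p => X p.1) = H w X := by sorry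

theorem H_prod_snd {w : Ω → ℝ} {w' : Ω' → ℝ} (hw : Law w) (hw' : Law w') (Y : Ω' → β) :
    H (prod w w') (fun p => Y p.2) = H w' Y := by sorry

/-- chain rule -/
theorem H_chain {w : Ω → ℝ} (hw : Law w) (X : Ω → α) (C : Ω → γ) :
    H w (fun ω => (X ω, C ω)) = H w C + ∑ c, push w C c * ent (cnd w X C c) := by sorry

theorem law_cnd {w : Ω → ℝ} (hw : Law w) (X : Ω → α) (C : Ω → γ) {c : γ}
    (hc : push w C c ≠ 0) : Law (cnd w X C c) := by sorry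

/-! ### A2: reindexing and independence -/

theorem push_equiv (e : Ω ≃ Ω') (w : Ω' → ℝ) (X : Ω' → α) :
    push (fun ω => w (e ω)) (fun ω => X (e ω)) = push w X := by sorry

theorem H_equiv (e : Ω ≃ Ω') (w : Ω' → ℝ) (X : Ω' → α) :
    H (fun ω => w (e ω)) (fun ω => X (e ω)) = H w X := by sorry

theorem CI_prod {w : Ω → ℝ} {w' : Ω' → ℝ} (X : Ω → α) (C : Ω → γ) (Y : Ω' → β) (C' : Ω' → δ) :
    CI (prod w w') (fun p => X p.1) (fun p => Y p.2) (fun p => (C p.1, C' p.2)) := by sorry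

variable {V : Type*} [AddCommGroup V] [Fintype V]

theorem law_conv {μ ν : V → ℝ} (hμ : Law μ) (hν : Law ν) : Law (conv μ ν) := by sorry

/-! ### B: averaging the minimality -/

theorem minimality {μ₀ : V → ℝ} (h0 : Law μ₀) {t : ℝ}
    (ht : ∀ μ ν : V → ℝ, Law μ → Law ν → t ≤ tau μ₀ μ ν)
    {w : Ω → ℝ} (hw : Law w) (X Y : Ω → V) (C : Ω → γ) (hCI : CI w X Y C) :
    t ≤ (H w (fun ω => (X ω + Y ω, C ω)) - H w C)
      - (H w (fun ω => (X ω, C ω)) - H w C) / 2 - (H w (fun ω => (Y ω, C ω)) - H w C) / 2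
      + ((E0 μ₀ w X C - H w C) - ent μ₀ / 2 - (H w (fun ω => (X ω, C ω)) - H w C) / 2
        + ((E0 μ₀ w Y C - H w C) - ent μ₀ / 2 - (H w (fun ω => (Y ω, C ω)) - H w C) / 2)) / 20 := by
  sorry

/-! ### C: entropic Balog-Szemeredi-Gowers, combined with the minimality -/

theorem endgame {μ₀ : V → ℝ} (h0 : Law μ₀) {t : ℝ} (h2 : ∀ x : V, x + x = 0)
    (ht : ∀ μ ν : V → ℝ, Law μ → Law ν → t ≤ tau μ₀ μ ν)
    {w : Ω → ℝ} (hw : Law w) (X Y Z : Ω → V) (S : Ω → γ) (hsum : ∀ ω, X ω + Y ω + Z ω = 0) :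
    t ≤ (2 * H w (fun ω => (X ω, S ω)) + 2 * H w (fun ω => (Y ω, S ω)) + H w (fun ω => (Z ω, S ω))
        - 2 * H w (fun ω => (X ω, Y ω, S ω)) - 3 * H w S)
      - (H w (fun ω => (X ω, Y ω, S ω)) - H w (fun ω => (Z ω, S ω)))
      + ((E0 μ₀ w X S - H w S) - ent μ₀ / 2 - (H w (fun ω => (X ω, Y ω, S ω))
            - H w (fun ω => (Z ω, S ω))) / 2
        + ((E0 μ₀ w Y S - H w S) - ent μ₀ / 2 - (H w (fun ω => (X ω, Y ω, S ω))
            - H w (fun ω => (Z ω, S ω))) / 2)) / 20 := by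
  sorry

/-! ### D: existence of a minimiser -/

theorem exists_min (μ₀ : V → ℝ) : ∃ μ₁ μ₂ : V → ℝ, Law μ₁ ∧ Law μ₂ ∧
    ∀ μ ν : V → ℝ, Law μ → Law ν → tau μ₀ μ₁ μ₂ ≤ tau μ₀ μ ν := by sorry

/-! ### E: Kaimanovich-Vershik-Madiman -/

theorem kvm {μ₀ : V → ℝ} (h0 : Law μ₀) {w : Ω → ℝ} (hw : Law w) (Y Z : Ω → V)
    (hYZ : H w (fun ω => (Y ω, Z ω)) = H w Y + H w Z) :
    E0 μ₀ w (fun ω => Y ω + Z ω) (fun _ => ()) ≤
      E0 μ₀ w Y (fun _ => ()) + H w (fun ω => Y ω + Z ω) - H w Y := by sorry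

theorem E0_cond_le {μ₀ : V → ℝ} (h0 : Law μ₀) {w : Ω → ℝ} (hw : Law w) (X : Ω → V)
    (C : Ω → γ) : E0 μ₀ w X C - H w C ≤ E0 μ₀ w X (fun _ => ()) := by sorry

theorem E0_translate {μ₀ : V → ℝ} (h0 : Law μ₀) {w : Ω → ℝ} (hw : Law w) (X : Ω → V)
    (C : Ω → γ) (f : γ → V) : E0 μ₀ w (fun ω => X ω + f (C ω)) C = E0 μ₀ w X C := by sorry

theorem E0_push {μ₀ : V → ℝ} (h0 : Law μ₀) {w : Ω → ℝ} (hw : Law w) (X : Ω → V) :
    E0 μ₀ w X (fun _ => ()) = ent (conv μ₀ (push w X)) := by sorry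

theorem conv_comm (μ ν : V → ℝ) : conv μ ν = conv ν μ := by sorry

theorem ent_le_conv_left {μ ν : V → ℝ} (hμ : Law μ) (hν : Law ν) : ent μ ≤ ent (conv μ ν) := by
  sorry

theorem dist_nonneg {μ ν : V → ℝ} (hμ : Law μ) (hν : Law ν) : 0 ≤ dist μ ν := by sorry

/-! ### F: at the minimiser the distance vanishes -/

theorem dist_eq_zero (h2 : ∀ x : V, x + x = 0) {μ₀ μ₁ μ₂ : V → ℝ} (h0 : Law μ₀) (h1 : Law μ₁)
    (h2' : Law μ₂) (hmin : ∀ μ ν : V → ℝ, Law μ → Law ν → tau μ₀ μ₁ μ₂ ≤ tau μ₀ μ ν) :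
    dist μ₁ μ₂ = 0 := by sorry

/-! ### G: the 100 percent case -/

theorem hundred {μ₁ μ₂ : V → ℝ} (h1 : Law μ₁) (h2 : Law μ₂) (hd : dist μ₁ μ₂ = 0) :
    ∃ G : AddSubgroup V, (∀ h ∈ G, ∀ x, μ₁ (x + h) = μ₁ x) ∧ ent μ₁ = Real.log (Nat.card G) ∧
      (∀ h ∈ G, ∀ x, μ₂ (x + h) = μ₂ x) ∧ ent μ₂ = Real.log (Nat.card G) := by sorry

/-- entropy of the image of `μ` in `V ⧸ G` -/
noncomputable def entMod (μ : V → ℝ) (G : AddSubgroup V) : ℝ :=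
  H μ (fun x : V => (QuotientAddGroup.mk x : V ⧸ G))

theorem ent_le_entMod {μ : V → ℝ} (hμ : Law μ) (G : AddSubgroup V) :
    ent μ ≤ entMod μ G + Real.log (Nat.card G) := by sorry

theorem entMod_add_log_le {μ ν : V → ℝ} (hμ : Law μ) (hν : Law ν) (G : AddSubgroup V)
    (hG : ∀ h ∈ G, ∀ x, ν (x + h) = ν x) :
    entMod μ G + Real.log (Nat.card G) ≤ ent (conv μ ν) := by sorry

/-- entropic polynomial Freiman-Ruzsa theorem in characteristic 2 -/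
theorem pfr2 (h2 : ∀ x : V, x + x = 0) {μ : V → ℝ} (hμ : Law μ) :
    ∃ G : AddSubgroup V, entMod μ G ≤ 22 * (ent (conv μ μ) - ent μ) ∧
      |Real.log (Nat.card G) - ent μ| ≤ 22 * (ent (conv μ μ) - ent μ) := by sorry

end H137.PFR
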