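import Pool.Agent.H137R2.PFR.Final
import Pool.Agent.H460R2.Defs
set_option autoImplicit false

open scoped Classical

namespace H137.PFR

theorem wrap_conv_apply {V : Type*} [AddCommGroup V] [Fintype V] (μ ν : V → ℝ) (v : V) :
    conv μ ν v = ∑ x, μ x * ν (v - x) := by
  unfold conv push prod
  rw [Fintype.sum_prod_type]
  refine Finset.sum_congr rfl (fun x _ => ?_)
  rw [Finset.sum_eq_single (v - x)]
  · simp
  · intro y _ hy
    rw [if_neg]
    intro h
    apply hy
    rw [← h]; simp
  · intro h; exact absurd (Finset.mem_univ _) h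

/-- some value is at least `exp (-entropy)` -/
theorem exists_exp_le {α : Type*} [Fintype α] {p : α → ℝ} (hp : Law p) :
    ∃ a, Real.exp (-ent p) ≤ p a := by
  by_contra hcon
  push Not at hcon
  -- all positive values have -log p > ent
  have h1 : ∀ a, p a * ent p ≤ Real.negMulLog (p a) := by
    intro a
    rcases (hp.1 a).eq_or_lt with h | h
    · rw [← h]; simp
    · rw [Real.negMulLog]
      have h2 : Real.log (p a) < -ent p := by
        rw [← Real.log_exp (-ent p)]
        exact Real.log_lt_log h (hcon a)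
      nlinarith
  obtain ⟨a, ha⟩ : ∃ a, 0 < p a := by
    by_contra h
    push Not at h
    have : ∑ x, p x ≤ 0 := Finset.sum_nonpos (fun x _ => h x)
    rw [hp.2] at this
    linarith
  have h2 : p a * ent p < Real.negMulLog (p a) := by
    rw [Real.negMulLog]
    have h3 : Real.log (p a) < -ent p := by
      rw [← Real.log_exp (-ent p)]
      exact Real.log_lt_log ha (hcon a)
    nlinarith
  have h3 : ∑ x, p x * ent p < ∑ x, Real.negMulLog (p x) :=
    Finset.sum_lt_sum (fun x _ => h1 x) ⟨a, Finset.mem_univ a, h2⟩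
  rw [← Finset.sum_mul, hp.2, one_mul] at h3
  exact lt_irrefl _ h3

theorem pfr2Statement : H460.PFR2Statement := by
  refine ⟨22, by norm_num, ?_⟩
  intro G _ _ h2 μ h0 h1
  have hμ : Law μ := ⟨h0, h1⟩
  obtain ⟨K, hK1, hK2⟩ := pfr2 h2 hμ
  have hc : conv μ μ = H460.cnv μ μ := by
    funext v
    rw [wrap_conv_apply]
    rfl
  have he : ∀ p : G → ℝ, ent p = H460.Ent p := fun _ => rfl
  rw [hc, he, he] at hK1 hK2
  obtain ⟨c, hcc⟩ := exists_exp_le (law_push hμ (fun x : G => (QuotientAddGroup.mk x : G ⧸ K)))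
  obtain ⟨g, rfl⟩ := QuotientAddGroup.mk_surjective c
  refine ⟨K, g, ?_, ?_⟩
  · refine le_trans (Real.exp_le_exp.2 (neg_le_neg hK1)) (hcc.trans (le_of_eq ?_))
    unfold push
    refine Finset.sum_congr rfl (fun x _ => ?_)
    have hiff : ((QuotientAddGroup.mk x : G ⧸ K) = QuotientAddGroup.mk g) ↔ x - g ∈ K := by
      rw [eq_comm, QuotientAddGroup.eq]
      have : -g + x = x - g := by abel
      rw [this]
    by_cases h : x - g ∈ K
    · rw [if_pos h, if_pos (hiff.2 h)]
    · rw [if_neg h, if_neg (fun h' => h (hiff.1 h'))]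
  · have := (abs_le.1 hK2).2
    linarith

end H137.PFR
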